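import Mathlib

/-!
# Paths of prescribed order between all pairs of vertices
-/

namespace Pool.Agent.Q291.PO

/-- There is a path from `u` to `v` with exactly `i` vertices. -/
def HasPath {V : Type*} (G : SimpleGraph V) (u v : V) (i : ℕ) : Prop :=
  ∃ l : List V, l.length = i ∧ l.Nodup ∧ l.IsChain G.Adj ∧ l.head? = some u ∧ l.getLast? = some v

/-- Property `P_i`: every two distinct vertices are joined by a path with exactly `i` vertices. -/
def Joined {V : Type*} (G : SimpleGraph V) (i : ℕ) : Prop :=
  ∀ u v : V, u ≠ v → HasPath G u v i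

section basic

variable {V : Type*} {G : SimpleGraph V}

lemma HasPath.symm {u v : V} {i : ℕ} (h : HasPath G u v i) : HasPath G v u i := by
  obtain ⟨l, hl, hn, hc, hu, hv⟩ := h
  refine ⟨l.reverse, by simpa using hl, List.nodup_reverse.2 hn, ?_, ?_, ?_⟩
  · rw [List.isChain_reverse]
    exact hc.imp fun a b h => h.symm
  · simpa using hv
  · simpa using hu

lemma hasPath_three {u v : V} (h : HasPath G u v 3) : ∃ z, G.Adj u z ∧ G.Adj z v := by
  obtain ⟨l, hl, hn, hc, hu, hv⟩ := h
  match l, hl with
  | [a, b, c], _ =>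
    simp at hu hv hc
    subst hu; subst hv
    exact ⟨b, hc.1, hc.2⟩

lemma hasPath_five {u v : V} (h : HasPath G u v 5) :
    ∃ a b c, [u, a, b, c, v].Nodup ∧ G.Adj u a ∧ G.Adj a b ∧ G.Adj b c ∧ G.Adj c v := by
  obtain ⟨l, hl, hn, hc, hu, hv⟩ := h
  match l, hl with
  | [x, a, b, c, y], _ =>
    simp at hu hv
    subst hu; subst hv
    simp at hc
    exact ⟨a, b, c, hn, hc.1, hc.2.1, hc.2.2.1, hc.2.2.2⟩

lemma hasPath_five' {u v a b c : V} (hn : [u, a, b, c, v].Nodup) (h1 : G.Adj u a)
    (h2 : G.Adj a b) (h3 : G.Adj b c) (h4 : G.Adj c v) : HasPath G u v 5 :=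
  ⟨[u, a, b, c, v], rfl, hn, by simp [h1, h2, h3, h4], rfl, rfl⟩

end basic

section cut

variable {V : Type*} {G : SimpleGraph V}

lemma chain_const {X : Set V} {s t : V}
    (hX : ∀ x ∈ X, ∀ y, G.Adj x y → y ∈ X ∨ y = s ∨ y = t) :
    ∀ m : List V, m.IsChain G.Adj → s ∉ m → t ∉ m → (∃ x ∈ m, x ∈ X) → ∀ y ∈ m, y ∈ X := by
  intro m
  induction m with
  | nil => intro _ _ _ _ y hy; simp at hy
  | cons a m ih =>
    intro hc hs ht hx y hy
    cases m with
    | nil =>
      obtain ⟨x, hx1, hx2⟩ := hx
      simp at hx1 hy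
      subst hx1; subst hy; exact hx2
    | cons b m =>
      rw [List.isChain_cons_cons] at hc
      have hs' : s ∉ b :: m := fun h => hs (List.mem_cons_of_mem _ h)
      have ht' : t ∉ b :: m := fun h => ht (List.mem_cons_of_mem _ h)
      have hab : a ∈ X ↔ b ∈ X := by
        constructor
        · intro ha
          rcases hX a ha b hc.1 with h | h | h
          · exact h
          · exact absurd (by simp [h]) hs'
          · exact absurd (by simp [h]) ht'
        · intro hb
          rcases hX b hb a hc.1.symm with h | h | h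
          · exact h
          · exact absurd (by simp [h]) hs
          · exact absurd (by simp [h]) ht
      have hb : b ∈ X := by
        obtain ⟨x, hx1, hx2⟩ := hx
        rcases List.mem_cons.1 hx1 with rfl | hx1
        · exact hab.1 hx2
        · exact ih hc.2 hs' ht' ⟨x, hx1, hx2⟩ b (by simp)
      rcases List.mem_cons.1 hy with rfl | hy
      · exact hab.2 hb
      · exact ih hc.2 hs' ht' ⟨b, by simp, hb⟩ y hy

/-- No Hamiltonian path joins the two vertices of a separating pair. -/
lemma cut [Fintype V] (hP : Joined G (Fintype.card V)) (X : Set V) (s t : V) (hst : s ≠ t)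
    (hs : s ∉ X) (ht : t ∉ X) (x : V) (hx : x ∈ X) (y : V) (hy : y ∉ X) (hys : y ≠ s)
    (hyt : y ≠ t) (hX : ∀ x ∈ X, ∀ y, G.Adj x y → y ∈ X ∨ y = s ∨ y = t) : False := by
  classical
  obtain ⟨l, hl, hn, hc, hu, hv⟩ := hP s t hst
  have hall : ∀ z, z ∈ l := by
    intro z
    have h1 : l.toFinset = Finset.univ := by
      apply Finset.eq_univ_of_card
      rw [List.toFinset_card_of_nodup hn, hl]
    have : z ∈ l.toFinset := by rw [h1]; exact Finset.mem_univ z
    simpa using this
  obtain ⟨r, rfl⟩ : ∃ r, l = s :: r := by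
    cases l with
    | nil => simp at hu
    | cons a r => simp at hu; exact ⟨r, by rw [hu]⟩
  have hr : r ≠ [] := by
    rintro rfl
    simp at hv
    exact hst hv
  have hv' : r.getLast? = some t := by
    cases r with
    | nil => exact absurd rfl hr
    | cons b r => simpa using hv
  obtain ⟨m, rfl⟩ := List.getLast?_eq_some_iff.1 hv'
  have hm : m.IsChain G.Adj := by
    have h1 := List.IsChain.tail hc
    simp only [List.tail_cons] at h1
    exact (List.isChain_append.1 h1).1
  have hsm : s ∉ m := by
    intro h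
    rw [List.nodup_cons] at hn
    exact hn.1 (by simp [h])
  have htm : t ∉ m := by
    intro h
    rw [List.nodup_cons, List.nodup_append] at hn
    exact hn.2.2.2 t h t (by simp) rfl
  have hmem : ∀ z, z ≠ s → z ≠ t → z ∈ m := by
    intro z h1 h2
    have := hall z
    simp [h1, h2] at this
    exact this
  have hxm : x ∈ m := hmem x (fun h => hs (h ▸ hx)) (fun h => ht (h ▸ hx))
  exact hy (chain_const hX m hm hsm htm ⟨x, hxm, hx⟩ y (hmem y hys hyt))

end cut

end Pool.Agent.Q291.PO
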