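import Mathlib
import Pool.Agent.Q291.PO.Core

/-!
# Adding a true twin
-/

namespace Pool.Agent.Q291.PO

section

variable {V : Type} (G : SimpleGraph V) (x : V)

/-- The graph obtained by adding a true twin `none` of the vertex `x`. -/
def twin : SimpleGraph (Option V) where
  Adj p q := match p, q with
    | some a, some b => G.Adj a b
    | none, some b => b = x ∨ G.Adj x b
    | some a, none => a = x ∨ G.Adj x a
    | none, none => False
  symm := ⟨by
    intro p q h
    cases p <;> cases q
    · exact h
    · exact h
    · exact h
    · exact SimpleGraph.Adj.symm (G := G) h⟩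
  loopless := ⟨by
    intro p h
    cases p
    · exact h
    · exact G.irrefl h⟩

variable {G x}

lemma twin_some {a b : V} : (twin G x).Adj (some a) (some b) ↔ G.Adj a b := Iff.rfl

lemma twin_none {b : V} : (twin G x).Adj none (some b) ↔ (b = x ∨ G.Adj x b) := Iff.rfl

lemma twin_none' {b : V} : (twin G x).Adj (some b) none ↔ (b = x ∨ G.Adj x b) := Iff.rfl

lemma nodup_map_some {l : List V} (h : l.Nodup) : (l.map some).Nodup :=
  h.map (Option.some_injective V)

lemma chain_map_some {l : List V} (h : l.IsChain G.Adj) : (l.map some).IsChain (twin G x).Adj := by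
  rw [List.isChain_map]
  exact h

lemma hasPath_some {p q : V} {i : ℕ} (h : HasPath G p q i) :
    HasPath (twin G x) (some p) (some q) i := by
  obtain ⟨l, hl, hn, hc, hu, hv⟩ := h
  refine ⟨l.map some, by simpa using hl, nodup_map_some hn, chain_map_some hc, ?_, ?_⟩
  · simp [hu]
  · simp [hv]

lemma hasPath_cons {y q : V} {i : ℕ} (hy : y = x ∨ G.Adj x y) (h : HasPath G y q i) :
    HasPath (twin G x) none (some q) (i + 1) := by
  obtain ⟨l, hl, hn, hc, hu, hv⟩ := h
  cases l with
  | nil => simp at hu
  | cons a t =>
    simp at hu
    subst hu
    refine ⟨none :: (a :: t).map some, by simpa using hl, ?_, ?_, rfl, ?_⟩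
    · rw [List.nodup_cons]
      exact ⟨by simp, nodup_map_some hn⟩
    · rw [List.map_cons, List.isChain_cons_cons]
      exact ⟨twin_none.2 hy, by simpa using chain_map_some (x := x) hc⟩
    · have h1 : (none :: (a :: t).map some).getLast? = ((a :: t).map some).getLast? := by
        rw [List.map_cons, List.getLast?_cons_cons]
      rw [h1, List.getLast?_map, hv]
      rfl

lemma hasPath_tail {p q : V} {i : ℕ} (h : HasPath G p q (i + 1)) (hpq : p ≠ q) :
    ∃ b, G.Adj p b ∧ HasPath G b q i := by
  obtain ⟨l, hl, hn, hc, hu, hv⟩ := h
  match l, hu with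
  | [a], hu =>
    simp at hu hv
    exact absurd (hu.symm.trans hv) hpq
  | a :: b :: t, hu =>
    simp at hu
    subst hu
    rw [List.isChain_cons_cons] at hc
    refine ⟨b, hc.1, b :: t, by simpa using hl, (List.nodup_cons.1 hn).2, hc.2, rfl, ?_⟩
    rw [List.getLast?_cons_cons] at hv
    exact hv

lemma hasPath_insert {p q : V} {l : List V} (hn : l.Nodup) (hc : l.IsChain G.Adj)
    (hu : l.head? = some p) (hv : l.getLast? = some q) (hx : x ∈ l) (hxq : x ≠ q) :
    HasPath (twin G x) (some p) (some q) (l.length + 1) := by
  obtain ⟨l1, l2, rfl⟩ := List.append_of_mem hx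
  cases l2 with
  | nil =>
    simp at hv
    exact absurd hv hxq
  | cons b l2 =>
    rw [List.isChain_append] at hc
    obtain ⟨hc1, hc2, hc3⟩ := hc
    rw [List.isChain_cons_cons] at hc2
    refine ⟨l1.map some ++ (some x :: none :: (b :: l2).map some), ?_, ?_, ?_, ?_, ?_⟩
    · simp
      omega
    · have h1 : (none :: (l1 ++ x :: b :: l2).map some).Nodup := by
        rw [List.nodup_cons]
        exact ⟨by simp, nodup_map_some hn⟩
      have h2 : (l1.map some ++ (some x :: none :: (b :: l2).map some)).Perm
          (none :: (l1 ++ x :: b :: l2).map some) := by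
        rw [List.map_append, List.map_cons]
        have e1 : (l1.map some ++ (some x :: none :: (b :: l2).map some)).Perm
            (l1.map some ++ (none :: some x :: (b :: l2).map some)) :=
          List.Perm.append_left _ (List.Perm.swap _ _ _)
        exact e1.trans List.perm_middle
      exact h2.nodup_iff.2 h1
    · rw [List.isChain_append]
      refine ⟨chain_map_some hc1, ?_, ?_⟩
      · rw [List.map_cons, List.isChain_cons_cons, List.isChain_cons_cons]
        refine ⟨twin_none'.2 (Or.inl rfl), twin_none.2 (Or.inr hc2.1), ?_⟩
        simpa using chain_map_some (x := x) hc2.2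
      · intro a ha c hc'
        simp only [List.head?_cons, Option.mem_def, Option.some.injEq] at hc'
        subst hc'
        simp only [List.getLast?_map, Option.mem_def, Option.map_eq_some_iff] at ha
        obtain ⟨a', ha', rfl⟩ := ha
        exact twin_some.2 (hc3 a' ha' x rfl)
    · cases l1 with
      | nil => simpa using hu
      | cons a l1 => simpa using hu
    · have e1 : (l1 ++ x :: b :: l2).getLast? = (b :: l2).getLast? := by
        rw [List.getLast?_append_of_ne_nil _ (by simp), List.getLast?_cons_cons]
      rw [e1] at hv
      rw [List.getLast?_append_of_ne_nil _ (by simp), List.getLast?_cons_cons, List.map_cons,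
        List.getLast?_cons_cons, ← List.map_cons, List.getLast?_map, hv]
      rfl

/-- The invariant of the construction. -/
def Inv [Fintype V] (G : SimpleGraph V) (u v x : V) : Prop :=
  u ≠ v ∧ 6 ≤ Fintype.card V ∧
  (∀ i, 3 ≤ i → i ≤ Fintype.card V → i ≠ 5 → Joined G i) ∧ ¬ HasPath G u v 5 ∧
  x ≠ u ∧ x ≠ v ∧ ¬ G.Adj u x ∧ ¬ G.Adj v x ∧ ∃ y, G.Adj x y ∧ HasPath G x y 5

lemma Inv.step [Fintype V] {u v : V} (h : Inv G u v x) :
    Inv (twin G x) (some u) (some v) (some x) := by
  classical
  obtain ⟨huv, hc6, hJ, hno, hxu, hxv, hux, hvx, y, hxy, h5⟩ := h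
  have hcard : Fintype.card (Option V) = Fintype.card V + 1 := Fintype.card_option
  -- paths from the new vertex to old ones
  have hnone : ∀ i, 3 ≤ i → i ≤ Fintype.card V + 1 → i ≠ 5 → ∀ q : V,
      HasPath (twin G x) none (some q) i := by
    intro i hi1 hi2 hi5 q
    by_cases hq : q = x
    · subst hq
      obtain ⟨i, rfl⟩ : ∃ k, i = k + 1 := ⟨i - 1, by omega⟩
      refine hasPath_cons (y := y) (Or.inr hxy) ?_
      by_cases h2 : i = 2
      · subst h2
        exact ⟨[y, q], rfl, by simp [hxy.ne.symm], by simp [hxy.symm], rfl, rfl⟩
      by_cases h6 : i = 5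
      · subst h6
        exact h5.symm
      · exact hJ i (by omega) (by omega) h6 y q hxy.ne.symm
    · by_cases hi : i = Fintype.card V + 1
      · subst hi
        exact hasPath_cons (Or.inl rfl) (hJ _ (by omega) le_rfl (by omega) x q (Ne.symm hq))
      · obtain ⟨i, rfl⟩ : ∃ k, i = k + 1 := ⟨i - 1, by omega⟩
        obtain ⟨b, hb1, hb2⟩ := hasPath_tail
          (hJ (i + 1) hi1 (by omega) hi5 x q (Ne.symm hq)) (Ne.symm hq)
        exact hasPath_cons (Or.inr hb1) hb2
  -- Hamiltonian paths between old vertices
  have hham : ∀ p q : V, p ≠ q → x ≠ q →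
      HasPath (twin G x) (some p) (some q) (Fintype.card V + 1) := by
    intro p q hpq hxq
    obtain ⟨l, hl, hn, hc, hu, hv⟩ := hJ (Fintype.card V) (by omega) le_rfl (by omega) p q hpq
    have hx : x ∈ l := by
      have h1 : l.toFinset = Finset.univ := by
        apply Finset.eq_univ_of_card
        rw [List.toFinset_card_of_nodup hn, hl]
      have : x ∈ l.toFinset := by rw [h1]; exact Finset.mem_univ x
      simpa using this
    rw [← hl]
    exact hasPath_insert hn hc hu hv hx hxq
  refine ⟨fun h => huv (Option.some_injective V h), by omega, ?_, ?_,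
    fun h => hxu (Option.some_injective V h), fun h => hxv (Option.some_injective V h),
    hux, hvx, some y, hxy, hasPath_some h5⟩
  · intro i hi1 hi2 hi5 p q hpq
    rw [hcard] at hi2
    cases p with
    | none =>
      cases q with
      | none => exact absurd rfl hpq
      | some q => exact hnone i hi1 hi2 hi5 q
    | some p =>
      cases q with
      | none => exact (hnone i hi1 hi2 hi5 p).symm
      | some q =>
        have hpq' : p ≠ q := fun h => hpq (by rw [h])
        by_cases hi : i = Fintype.card V + 1
        · subst hi
          by_cases hxq : x = q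
          · subst hxq
            exact (hham x p hpq'.symm hpq'.symm).symm
          · exact hham p q hpq' hxq
        · exact hasPath_some (hJ i hi1 (by omega) hi5 p q hpq')
  · intro hp
    obtain ⟨a, b, c, hn, h1, h2, h3, h4⟩ := hasPath_five hp
    cases a with
    | none =>
      rcases twin_none'.1 h1 with h | h
      · exact hxu h.symm
      · exact hux h.symm
    | some a =>
      cases c with
      | none =>
        rcases twin_none.1 h4 with h | h
        · exact hxv h.symm
        · exact hvx h.symm
      | some c =>
        have e1 : G.Adj u a := h1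
        have e4 : G.Adj c v := h4
        cases b with
        | some b =>
          refine hno (hasPath_five' (a := a) (b := b) (c := c) ?_ h1 h2 h3 h4)
          have : ([u, a, b, c, v].map some).Nodup := hn
          exact List.Nodup.of_map _ this
        | none =>
          have hax : G.Adj x a := by
            rcases twin_none'.1 h2 with h | h
            · subst h; exact absurd e1 hux
            · exact h
          have hcx : G.Adj x c := by
            rcases twin_none.1 h3 with h | h
            · subst h; exact absurd e4.symm hvx
            · exact h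
          refine hno (hasPath_five' (a := a) (b := x) (c := c) ?_ e1 hax.symm hcx e4)
          simp only [List.nodup_cons, List.mem_cons, List.not_mem_nil, or_false, not_or,
            not_false_eq_true, List.nodup_nil, and_true, Option.some.injEq, reduceCtorEq,
            false_and, true_and] at hn ⊢
          have := hax.ne
          have := hcx.ne
          tauto

end

end Pool.Agent.Q291.PO
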