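import Mathlib
import Pool.Agent.Q291.PO.Twin

/-!
# The two base graphs
-/

namespace Pool.Agent.Q291.PO

section base11

/-- Neighbour masks of the graph on eleven vertices. -/
def mask11 : List ℕ := [30, 29, 107, 391, 1539, 1988, 1956, 1896, 1768, 1520, 1008]

/-- The graph on eleven vertices. -/
def G11 : SimpleGraph (Fin 11) where
  Adj a b := (mask11.getD a.val 0).testBit b.val = true
  symm := ⟨by decide +kernel⟩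
  loopless := ⟨by decide +kernel⟩

instance : DecidableRel G11.Adj := fun a b =>
  inferInstanceAs (Decidable ((mask11.getD a.val 0).testBit b.val = true))

/-- The lengths. -/
def len11 : List ℕ := [3, 4, 6, 7, 8, 9, 10, 11]

/-- Paths. -/
def tab11 : List (List (List (Fin 11))) :=
  [[],
   [[0,2,1], [0,2,3,1], [0,2,5,7,3,1], [0,2,3,7,9,4,1], [0,2,3,7,5,9,4,1], [0,2,3,7,5,6,9,4,1], [0,2,3,7,5,6,8,9,4,1], [0,2,3,7,5,6,8,9,10,4,1]],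
   [[0,1,2], [0,1,3,2], [0,1,3,7,5,2], [0,1,3,7,5,6,2], [0,1,3,7,5,8,6,2], [0,1,3,7,5,8,9,6,2], [0,1,3,7,5,8,9,10,6,2], [0,1,3,7,5,8,9,4,10,6,2]],
   [[0,1,3], [0,1,2,3], [0,1,2,5,7,3], [0,1,2,5,6,7,3], [0,1,2,5,6,7,8,3], [0,1,2,5,6,7,9,8,3], [0,1,2,5,6,7,9,10,8,3], [0,1,2,5,6,7,9,4,10,8,3]],
   [[0,1,4], [0,2,1,4], [0,1,2,5,9,4], [0,1,2,3,7,9,4], [0,1,2,3,7,5,9,4], [0,1,2,3,7,5,6,9,4], [0,1,2,3,7,5,6,8,9,4], [0,1,2,3,7,5,6,8,9,10,4]],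
   [[0,2,5], [0,1,2,5], [0,1,2,3,7,5], [0,1,2,3,7,6,5], [0,1,2,3,7,6,8,5], [0,1,2,3,7,6,8,9,5], [0,1,2,3,7,6,8,9,10,5], [0,1,2,3,7,6,8,9,4,10,5]],
   [[0,2,6], [0,1,2,6], [0,1,2,3,7,6], [0,1,2,3,7,5,6], [0,1,2,3,7,5,8,6], [0,1,2,3,7,5,8,9,6], [0,1,2,3,7,5,8,9,10,6], [0,1,2,3,7,5,8,9,4,10,6]],
   [[0,3,7], [0,1,3,7], [0,1,2,3,8,7], [0,1,2,3,8,5,7], [0,1,2,3,8,5,6,7], [0,1,2,3,8,5,6,9,7], [0,1,2,3,8,5,6,9,10,7], [0,1,2,3,8,5,6,9,4,10,7]],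
   [[0,3,8], [0,1,3,8], [0,1,2,3,7,8], [0,1,2,3,7,5,8], [0,1,2,3,7,5,6,8], [0,1,2,3,7,5,6,9,8], [0,1,2,3,7,5,6,9,10,8], [0,1,2,3,7,5,6,9,4,10,8]],
   [[0,4,9], [0,1,4,9], [0,1,2,3,7,9], [0,1,2,3,7,5,9], [0,1,2,3,7,5,6,9], [0,1,2,3,7,5,6,8,9], [0,1,2,3,7,5,6,8,10,9], [0,1,2,3,7,5,6,8,10,4,9]],
   [[0,4,10], [0,1,4,10], [0,1,2,3,7,10], [0,1,2,3,7,5,10], [0,1,2,3,7,5,6,10], [0,1,2,3,7,5,6,8,10], [0,1,2,3,7,5,6,8,9,10], [0,1,2,3,7,5,6,8,9,4,10]],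
   [],
   [],
   [[1,0,2], [1,0,3,2], [1,0,3,7,5,2], [1,0,3,7,5,6,2], [1,0,3,7,5,8,6,2], [1,0,3,7,5,8,9,6,2], [1,0,3,7,5,8,9,10,6,2], [1,0,3,7,5,8,9,4,10,6,2]],
   [[1,0,3], [1,0,2,3], [1,0,2,5,7,3], [1,0,2,5,6,7,3], [1,0,2,5,6,7,8,3], [1,0,2,5,6,7,9,8,3], [1,0,2,5,6,7,9,10,8,3], [1,0,2,5,6,7,9,4,10,8,3]],
   [[1,0,4], [1,2,0,4], [1,0,2,5,9,4], [1,0,2,3,7,9,4], [1,0,2,3,7,5,9,4], [1,0,2,3,7,5,6,9,4], [1,0,2,3,7,5,6,8,9,4], [1,0,2,3,7,5,6,8,9,10,4]],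
   [[1,2,5], [1,0,2,5], [1,0,2,3,7,5], [1,0,2,3,7,6,5], [1,0,2,3,7,6,8,5], [1,0,2,3,7,6,8,9,5], [1,0,2,3,7,6,8,9,10,5], [1,0,2,3,7,6,8,9,4,10,5]],
   [[1,2,6], [1,0,2,6], [1,0,2,3,7,6], [1,0,2,3,7,5,6], [1,0,2,3,7,5,8,6], [1,0,2,3,7,5,8,9,6], [1,0,2,3,7,5,8,9,10,6], [1,0,2,3,7,5,8,9,4,10,6]],
   [[1,3,7], [1,0,3,7], [1,0,2,3,8,7], [1,0,2,3,8,5,7], [1,0,2,3,8,5,6,7], [1,0,2,3,8,5,6,9,7], [1,0,2,3,8,5,6,9,10,7], [1,0,2,3,8,5,6,9,4,10,7]],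
   [[1,3,8], [1,0,3,8], [1,0,2,3,7,8], [1,0,2,3,7,5,8], [1,0,2,3,7,5,6,8], [1,0,2,3,7,5,6,9,8], [1,0,2,3,7,5,6,9,10,8], [1,0,2,3,7,5,6,9,4,10,8]],
   [[1,4,9], [1,0,4,9], [1,0,2,3,7,9], [1,0,2,3,7,5,9], [1,0,2,3,7,5,6,9], [1,0,2,3,7,5,6,8,9], [1,0,2,3,7,5,6,8,10,9], [1,0,2,3,7,5,6,8,10,4,9]],
   [[1,4,10], [1,0,4,10], [1,0,2,3,7,10], [1,0,2,3,7,5,10], [1,0,2,3,7,5,6,10], [1,0,2,3,7,5,6,8,10], [1,0,2,3,7,5,6,8,9,10], [1,0,2,3,7,5,6,8,9,4,10]],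
   [],
   [],
   [],
   [[2,0,3], [2,0,1,3], [2,0,4,9,7,3], [2,0,1,4,9,7,3], [2,0,1,4,9,5,7,3], [2,0,1,4,9,5,6,7,3], [2,0,1,4,9,5,6,7,8,3], [2,0,1,4,9,5,6,7,10,8,3]],
   [[2,0,4], [2,0,1,4], [2,0,3,7,9,4], [2,0,1,3,7,9,4], [2,0,1,3,7,5,9,4], [2,0,1,3,7,5,6,9,4], [2,0,1,3,7,5,6,8,9,4], [2,0,1,3,7,5,6,8,9,10,4]],
   [[2,6,5], [2,3,7,5], [2,0,1,3,7,5], [2,0,1,3,7,6,5], [2,0,1,3,7,6,8,5], [2,0,1,3,7,6,8,9,5], [2,0,1,3,7,6,8,9,10,5], [2,0,1,3,7,6,8,9,4,10,5]],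
   [[2,5,6], [2,3,7,6], [2,0,1,3,7,6], [2,0,1,3,7,5,6], [2,0,1,3,7,5,8,6], [2,0,1,3,7,5,8,9,6], [2,0,1,3,7,5,8,9,10,6], [2,0,1,3,7,5,8,9,4,10,6]],
   [[2,3,7], [2,0,3,7], [2,0,1,3,8,7], [2,0,1,3,8,5,7], [2,0,1,3,8,5,6,7], [2,0,1,3,8,5,6,9,7], [2,0,1,3,8,5,6,9,10,7], [2,0,1,3,8,5,6,9,4,10,7]],
   [[2,3,8], [2,0,3,8], [2,0,1,3,7,8], [2,0,1,3,7,5,8], [2,0,1,3,7,5,6,8], [2,0,1,3,7,5,6,9,8], [2,0,1,3,7,5,6,9,10,8], [2,0,1,3,7,5,6,9,4,10,8]],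
   [[2,5,9], [2,0,4,9], [2,0,1,3,7,9], [2,0,1,3,7,5,9], [2,0,1,3,7,5,6,9], [2,0,1,3,7,5,6,8,9], [2,0,1,3,7,5,6,8,10,9], [2,0,1,3,7,5,6,8,10,4,9]],
   [[2,5,10], [2,0,4,10], [2,0,1,3,7,10], [2,0,1,3,7,5,10], [2,0,1,3,7,5,6,10], [2,0,1,3,7,5,6,8,10], [2,0,1,3,7,5,6,8,9,10], [2,0,1,3,7,5,6,8,9,4,10]],
   [],
   [],
   [],
   [],
   [[3,0,4], [3,0,1,4], [3,0,2,5,9,4], [3,0,1,2,5,9,4], [3,0,1,2,5,6,9,4], [3,0,1,2,5,6,7,9,4], [3,0,1,2,5,6,7,8,9,4], [3,0,1,2,5,6,7,8,9,10,4]],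
   [[3,2,5], [3,0,2,5], [3,0,1,2,6,5], [3,0,1,2,6,7,5], [3,0,1,2,6,7,8,5], [3,0,1,2,6,7,8,9,5], [3,0,1,2,6,7,8,9,10,5], [3,0,1,2,6,7,8,9,4,10,5]],
   [[3,2,6], [3,0,2,6], [3,0,1,2,5,6], [3,0,1,2,5,7,6], [3,0,1,2,5,7,8,6], [3,0,1,2,5,7,8,9,6], [3,0,1,2,5,7,8,9,10,6], [3,0,1,2,5,7,8,9,4,10,6]],
   [[3,8,7], [3,2,5,7], [3,0,1,2,5,7], [3,0,1,2,5,6,7], [3,0,1,2,5,6,8,7], [3,0,1,2,5,6,8,9,7], [3,0,1,2,5,6,8,9,10,7], [3,0,1,2,5,6,8,9,4,10,7]],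
   [[3,7,8], [3,2,5,8], [3,0,1,2,5,8], [3,0,1,2,5,6,8], [3,0,1,2,5,6,7,8], [3,0,1,2,5,6,7,9,8], [3,0,1,2,5,6,7,9,10,8], [3,0,1,2,5,6,7,9,4,10,8]],
   [[3,7,9], [3,0,4,9], [3,0,1,2,5,9], [3,0,1,2,5,6,9], [3,0,1,2,5,6,7,9], [3,0,1,2,5,6,7,8,9], [3,0,1,2,5,6,7,8,10,9], [3,0,1,2,5,6,7,8,10,4,9]],
   [[3,7,10], [3,0,4,10], [3,0,1,2,5,10], [3,0,1,2,5,6,10], [3,0,1,2,5,6,7,10], [3,0,1,2,5,6,7,8,10], [3,0,1,2,5,6,7,8,9,10], [3,0,1,2,5,6,7,8,9,4,10]],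
   [],
   [],
   [],
   [],
   [],
   [[4,9,5], [4,0,2,5], [4,0,1,2,6,5], [4,0,1,2,3,7,5], [4,0,1,2,3,7,6,5], [4,0,1,2,3,7,6,8,5], [4,0,1,2,3,7,6,8,9,5], [4,0,1,2,3,7,6,8,9,10,5]],
   [[4,9,6], [4,0,2,6], [4,0,1,2,5,6], [4,0,1,2,3,7,6], [4,0,1,2,3,7,5,6], [4,0,1,2,3,7,5,8,6], [4,0,1,2,3,7,5,8,9,6], [4,0,1,2,3,7,5,8,9,10,6]],
   [[4,9,7], [4,0,3,7], [4,0,1,2,3,7], [4,0,1,2,3,8,7], [4,0,1,2,3,8,5,7], [4,0,1,2,3,8,5,6,7], [4,0,1,2,3,8,5,6,9,7], [4,0,1,2,3,8,5,6,9,10,7]],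
   [[4,9,8], [4,0,3,8], [4,0,1,2,3,8], [4,0,1,2,3,7,8], [4,0,1,2,3,7,5,8], [4,0,1,2,3,7,5,6,8], [4,0,1,2,3,7,5,6,9,8], [4,0,1,2,3,7,5,6,9,10,8]],
   [[4,10,9], [4,10,5,9], [4,0,1,2,5,9], [4,0,1,2,3,7,9], [4,0,1,2,3,7,5,9], [4,0,1,2,3,7,5,6,9], [4,0,1,2,3,7,5,6,8,9], [4,0,1,2,3,7,5,6,8,10,9]],
   [[4,9,10], [4,9,5,10], [4,0,1,2,5,10], [4,0,1,2,3,7,10], [4,0,1,2,3,7,5,10], [4,0,1,2,3,7,5,6,10], [4,0,1,2,3,7,5,6,8,10], [4,0,1,2,3,7,5,6,8,9,10]],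
   [],
   [],
   [],
   [],
   [],
   [],
   [[5,2,6], [5,7,8,6], [5,2,0,3,7,6], [5,2,0,1,3,7,6], [5,2,0,1,3,7,8,6], [5,2,0,1,3,7,8,9,6], [5,2,0,1,3,7,8,9,10,6], [5,2,0,1,3,7,8,9,4,10,6]],
   [[5,6,7], [5,2,3,7], [5,2,0,1,3,7], [5,2,0,1,3,8,7], [5,2,0,1,3,8,6,7], [5,2,0,1,3,8,6,9,7], [5,2,0,1,3,8,6,9,10,7], [5,2,0,1,3,8,6,9,4,10,7]],
   [[5,6,8], [5,2,3,8], [5,2,0,1,3,8], [5,2,0,1,3,7,8], [5,2,0,1,3,7,6,8], [5,2,0,1,3,7,6,9,8], [5,2,0,1,3,7,6,9,10,8], [5,2,0,1,3,7,6,9,4,10,8]],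
   [[5,6,9], [5,2,6,9], [5,2,0,1,4,9], [5,2,0,1,3,7,9], [5,2,0,1,3,7,6,9], [5,2,0,1,3,7,6,8,9], [5,2,0,1,3,7,6,8,10,9], [5,2,0,1,3,7,6,8,10,4,9]],
   [[5,6,10], [5,2,6,10], [5,2,0,1,4,10], [5,2,0,1,3,7,10], [5,2,0,1,3,7,6,10], [5,2,0,1,3,7,6,8,10], [5,2,0,1,3,7,6,8,9,10], [5,2,0,1,3,7,6,8,9,4,10]],
   [],
   [],
   [],
   [],
   [],
   [],
   [],
   [[6,5,7], [6,2,3,7], [6,2,0,1,3,7], [6,2,0,1,3,8,7], [6,2,0,1,3,8,5,7], [6,2,0,1,3,8,5,9,7], [6,2,0,1,3,8,5,9,10,7], [6,2,0,1,3,8,5,9,4,10,7]],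
   [[6,5,8], [6,2,3,8], [6,2,0,1,3,8], [6,2,0,1,3,7,8], [6,2,0,1,3,7,5,8], [6,2,0,1,3,7,5,9,8], [6,2,0,1,3,7,5,9,10,8], [6,2,0,1,3,7,5,9,4,10,8]],
   [[6,5,9], [6,2,5,9], [6,2,0,1,4,9], [6,2,0,1,3,7,9], [6,2,0,1,3,7,5,9], [6,2,0,1,3,7,5,8,9], [6,2,0,1,3,7,5,8,10,9], [6,2,0,1,3,7,5,8,10,4,9]],
   [[6,5,10], [6,2,5,10], [6,2,0,1,4,10], [6,2,0,1,3,7,10], [6,2,0,1,3,7,5,10], [6,2,0,1,3,7,5,8,10], [6,2,0,1,3,7,5,8,9,10], [6,2,0,1,3,7,5,8,9,4,10]],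
   [],
   [],
   [],
   [],
   [],
   [],
   [],
   [],
   [[7,3,8], [7,5,6,8], [7,3,0,2,5,8], [7,3,0,1,2,5,8], [7,3,0,1,2,5,6,8], [7,3,0,1,2,5,6,9,8], [7,3,0,1,2,5,6,9,10,8], [7,3,0,1,2,5,6,9,4,10,8]],
   [[7,5,9], [7,3,8,9], [7,3,0,1,4,9], [7,3,0,1,2,5,9], [7,3,0,1,2,5,6,9], [7,3,0,1,2,5,6,8,9], [7,3,0,1,2,5,6,8,10,9], [7,3,0,1,2,5,6,8,10,4,9]],
   [[7,5,10], [7,3,8,10], [7,3,0,1,4,10], [7,3,0,1,2,5,10], [7,3,0,1,2,5,6,10], [7,3,0,1,2,5,6,8,10], [7,3,0,1,2,5,6,8,9,10], [7,3,0,1,2,5,6,8,9,4,10]],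
   [],
   [],
   [],
   [],
   [],
   [],
   [],
   [],
   [],
   [[8,5,9], [8,3,7,9], [8,3,0,1,4,9], [8,3,0,1,2,5,9], [8,3,0,1,2,5,6,9], [8,3,0,1,2,5,6,7,9], [8,3,0,1,2,5,6,7,10,9], [8,3,0,1,2,5,6,7,10,4,9]],
   [[8,5,10], [8,3,7,10], [8,3,0,1,4,10], [8,3,0,1,2,5,10], [8,3,0,1,2,5,6,10], [8,3,0,1,2,5,6,7,10], [8,3,0,1,2,5,6,7,9,10], [8,3,0,1,2,5,6,7,9,4,10]],
   [],
   [],
   [],
   [],
   [],
   [],
   [],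
   [],
   [],
   [],
   [[9,4,10], [9,5,6,10], [9,4,0,2,5,10], [9,4,0,1,2,5,10], [9,4,0,1,2,3,7,10], [9,4,0,1,2,3,7,5,10], [9,4,0,1,2,3,7,5,6,10], [9,4,0,1,2,3,7,5,6,8,10]],
   [],
   [],
   [],
   [],
   [],
   [],
   [],
   [],
   [],
   [],
   []]

/-- The test that a list is a path of the right kind. -/
def test {n : ℕ} (A : Fin n → Fin n → Bool) (u v : Fin n) (i : ℕ) (l : List (Fin n)) : Bool :=
  (l.length == i) && decide l.Nodup && decide (l.IsChain (fun a b => A a b = true)) &&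
    (l.head? == some u) && (l.getLast? == some v)

lemma test11 : ∀ u v : Fin 11, u < v → ∀ k : Fin 8,
    test (fun a b => (mask11.getD a.val 0).testBit b.val) u v (len11.getD k.val 0)
      ((tab11.getD (11 * u.val + v.val) []).getD k.val []) = true := by
  decide +kernel

lemma test_hasPath {n : ℕ} {A : Fin n → Fin n → Bool} {G : SimpleGraph (Fin n)}
    (hA : ∀ a b, A a b = true → G.Adj a b) {u v : Fin n} {i : ℕ} {l : List (Fin n)}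
    (h : test A u v i l = true) : HasPath G u v i := by
  unfold test at h
  simp only [Bool.and_eq_true, decide_eq_true_eq, beq_iff_eq] at h
  obtain ⟨⟨⟨⟨h1, h2⟩, h3⟩, h4⟩, h5⟩ := h
  exact ⟨l, h1, h2, h3.imp hA, h4, h5⟩

lemma joined_of_lt {n i : ℕ} {G : SimpleGraph (Fin n)}
    (h : ∀ u v : Fin n, u < v → HasPath G u v i) : Joined G i := by
  intro u v huv
  rcases lt_or_gt_of_ne huv with h1 | h1
  · exact h u v h1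
  · exact (h v u h1).symm

lemma joined11 {i : ℕ} (h3 : 3 ≤ i) (h11 : i ≤ 11) (h5 : i ≠ 5) : Joined G11 i := by
  obtain ⟨k, rfl⟩ : ∃ k : Fin 8, len11.getD k.val 0 = i := by
    interval_cases i
    · exact ⟨0, rfl⟩
    · exact ⟨1, rfl⟩
    · exact absurd rfl h5
    · exact ⟨2, rfl⟩
    · exact ⟨3, rfl⟩
    · exact ⟨4, rfl⟩
    · exact ⟨5, rfl⟩
    · exact ⟨6, rfl⟩
    · exact ⟨7, rfl⟩
  exact joined_of_lt fun u v huv => test_hasPath (fun a b h => h) (test11 u v huv k)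

lemma not11 : ¬ HasPath G11 0 1 5 := by
  intro h
  obtain ⟨a, b, c, h1, h2, h3, h4, h5⟩ := hasPath_five h
  revert a b c
  decide +kernel

lemma inv11 : Inv G11 0 1 9 := by
  refine ⟨by decide, by simp, ?_, not11, by decide, by decide, by decide +kernel,
    by decide +kernel, 10, by decide +kernel, ?_⟩
  · intro i h3 h11 h5
    exact joined11 h3 (by simpa using h11) h5
  · exact hasPath_five' (a := 5) (b := 6) (c := 7) (by decide +kernel) (by decide +kernel)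
      (by decide +kernel) (by decide +kernel) (by decide +kernel)

end base11

section base5

/-- Neighbour masks of the graph on five vertices. -/
def mask5 : List ℕ := [24, 28, 26, 23, 15]

/-- The graph on five vertices. -/
def G5 : SimpleGraph (Fin 5) where
  Adj a b := (mask5.getD a.val 0).testBit b.val = true
  symm := ⟨by decide +kernel⟩
  loopless := ⟨by decide +kernel⟩

instance : DecidableRel G5.Adj := fun a b =>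
  inferInstanceAs (Decidable ((mask5.getD a.val 0).testBit b.val = true))

/-- Paths. -/
def tab5 : List (List (List (Fin 5))) :=
  [[],
   [[0,3,1], [0,3,2,1]],
   [[0,3,2], [0,3,1,2]],
   [[0,4,3], [0,4,1,3]],
   [[0,3,4], [0,3,1,4]],
   [],
   [],
   [[1,3,2], [1,3,4,2]],
   [[1,2,3], [1,2,4,3]],
   [[1,2,4], [1,2,3,4]],
   [],
   [],
   [],
   [[2,1,3], [2,1,4,3]],
   [[2,1,4], [2,1,3,4]],
   [],
   [],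
   [],
   [],
   [[3,0,4], [3,1,2,4]],
   [],
   [],
   [],
   [],
   []]

lemma test5 : ∀ u v : Fin 5, u < v → ∀ k : Fin 2,
    test (fun a b => (mask5.getD a.val 0).testBit b.val) u v ([3, 4].getD k.val 0)
      ((tab5.getD (5 * u.val + v.val) []).getD k.val []) = true := by
  decide +kernel

lemma joined5 {i : ℕ} (h3 : 3 ≤ i) (h4 : i ≤ 4) : Joined G5 i := by
  obtain ⟨k, rfl⟩ : ∃ k : Fin 2, [3, 4].getD k.val 0 = i := by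
    interval_cases i
    · exact ⟨0, rfl⟩
    · exact ⟨1, rfl⟩
  exact joined_of_lt fun u v huv => test_hasPath (fun a b h => h) (test5 u v huv k)

lemma not5 : ¬ HasPath G5 3 4 5 := by
  intro h
  obtain ⟨a, b, c, h1, h2, h3, h4, h5⟩ := hasPath_five h
  revert a b c
  decide +kernel

end base5

section transport

/-- Paths are carried over by an isomorphism. -/
lemma hasPath_comap {V W : Type*} {G : SimpleGraph V} (e : W ≃ V) {u v : W} {i : ℕ} :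
    HasPath (G.comap e) u v i ↔ HasPath G (e u) (e v) i := by
  constructor
  · rintro ⟨l, hl, hn, hc, hu, hv⟩
    refine ⟨l.map e, by simpa using hl, hn.map e.injective, ?_, by simp [hu], by simp [hv]⟩
    rw [List.isChain_map]
    exact hc.imp fun a b h => h
  · rintro ⟨l, hl, hn, hc, hu, hv⟩
    refine ⟨l.map e.symm, by simpa using hl, hn.map e.symm.injective, ?_, by simp [hu],
      by simp [hv]⟩
    rw [List.isChain_map]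
    exact hc.imp fun a b h => by simpa using h

lemma joined_comap {V W : Type*} {G : SimpleGraph V} (e : W ≃ V) {i : ℕ} (h : Joined G i) :
    Joined (G.comap e) i := by
  intro u v huv
  exact (hasPath_comap e).2 (h _ _ (fun h => huv (e.injective h)))

/-- For every order at least eleven there is a graph with all properties except `P_5`. -/
lemma exists_inv : ∀ n : ℕ, 11 ≤ n → ∃ (V : Type) (_ : Fintype V) (G : SimpleGraph V)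
    (u v x : V), Fintype.card V = n ∧ Inv G u v x := by
  intro n hn
  induction n, hn using Nat.le_induction with
  | base => exact ⟨Fin 11, inferInstance, G11, 0, 1, 9, by simp, inv11⟩
  | succ n hn ih =>
    obtain ⟨V, hV, G, u, v, x, hc, h⟩ := ih
    exact ⟨Option V, inferInstance, twin G x, some u, some v, some x,
      by rw [Fintype.card_option, hc], h.step⟩

/-- The same on `Fin n`. -/
lemma exists_fin (n : ℕ) (hn : 11 ≤ n) : ∃ G : SimpleGraph (Fin n),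
    (∀ i, 3 ≤ i → i ≤ n → i ≠ 5 → Joined G i) ∧ ¬ Joined G 5 := by
  obtain ⟨V, hV, G, u, v, x, hc, h⟩ := exists_inv n hn
  have e : Fin n ≃ V := (Fintype.equivFinOfCardEq hc).symm
  refine ⟨G.comap e, ?_, ?_⟩
  · intro i h3 hi h5
    exact joined_comap e (h.2.2.1 i h3 (by rw [hc]; exact hi) h5)
  · intro h5
    have huv : e.symm u ≠ e.symm v := fun h' => h.1 (e.symm.injective h')
    have h6 := (hasPath_comap e).1 (h5 _ _ huv)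
    simp only [Equiv.apply_symm_apply] at h6
    exact h.2.2.2.1 h6

end transport

end Pool.Agent.Q291.PO
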