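import Mathlib
import Pool.Agent.Q291.PO.Core

/-!
# `P_3` and `P_n` force `P_6` for `n ≥ 7`
-/

namespace Pool.Agent.Q291.PO

section basic6

variable {V : Type*} {G : SimpleGraph V}

lemma hasPath_six {u v : V} (h : HasPath G u v 6) :
    ∃ a b c d, [u, a, b, c, d, v].Nodup ∧ G.Adj u a ∧ G.Adj a b ∧ G.Adj b c ∧ G.Adj c d ∧
      G.Adj d v := by
  obtain ⟨l, hl, hn, hc, hu, hv⟩ := h
  match l, hl with
  | [x, a, b, c, d, y], _ =>
    simp at hu hv
    subst hu; subst hv
    simp at hc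
    exact ⟨a, b, c, d, hn, hc.1, hc.2.1, hc.2.2.1, hc.2.2.2.1, hc.2.2.2.2⟩

lemma hasPath_six' {u v a b c d : V} (hn : [u, a, b, c, d, v].Nodup) (h1 : G.Adj u a)
    (h2 : G.Adj a b) (h3 : G.Adj b c) (h4 : G.Adj c d) (h5 : G.Adj d v) : HasPath G u v 6 :=
  ⟨[u, a, b, c, d, v], rfl, hn, by simp [h1, h2, h3, h4, h5], rfl, rfl⟩

/-- `u` and `v` are not the ends of a path with six vertices. -/
def No6 (G : SimpleGraph V) (u v : V) : Prop :=
  ∀ a b c d, a ≠ v → d ≠ u → b ≠ u → b ≠ v → c ≠ u → c ≠ v → a ≠ c → a ≠ d → b ≠ d →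
    G.Adj u a → G.Adj a b → G.Adj b c → G.Adj c d → G.Adj d v → False

lemma No6.symm {u v : V} (h : No6 G u v) : No6 G v u := by
  intro a b c d h1 h2 h3 h4 h5 h6 h7 h8 h9 e1 e2 e3 e4 e5
  exact h d c b a h2 h1 h6 h5 h4 h3 (Ne.symm h9) (Ne.symm h8) (Ne.symm h7) e5.symm e4.symm
    e3.symm e2.symm e1.symm

lemma no6_of {u v : V} (huv : u ≠ v) (h : ¬ HasPath G u v 6) : No6 G u v := by
  intro a b c d h1 h2 h3 h4 h5 h6 h7 h8 h9 e1 e2 e3 e4 e5
  refine h (hasPath_six' ?_ e1 e2 e3 e4 e5)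
  simp only [List.nodup_cons, List.mem_cons, List.not_mem_nil, or_false, not_or,
    List.nodup_nil, and_true, not_false_eq_true]
  exact ⟨⟨e1.ne, Ne.symm h3, Ne.symm h5, Ne.symm h2, huv⟩, ⟨e2.ne, h7, h8, h1⟩,
    ⟨e3.ne, h9, h4⟩, ⟨e4.ne, h6⟩, e5.ne⟩

end basic6

section

variable {V : Type*} {G : SimpleGraph V}

/-- The vertices far from `u` and `v`. -/
def Far (G : SimpleGraph V) (u v x : V) : Prop :=
  x ≠ u ∧ x ≠ v ∧ ¬ G.Adj u x ∧ ¬ G.Adj v x

lemma Far.symm {u v x : V} (h : Far G u v x) : Far G v u x := ⟨h.2.1, h.1, h.2.2.2, h.2.2.1⟩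

lemma claimC {u v : V} (K : No6 G u v) (h3 : ∀ p q : V, p ≠ q → ∃ z, G.Adj p z ∧ G.Adj z q)
    {x : V} (hx : Far G u v x) (hQ : ∀ p, G.Adj x p → G.Adj u p ∨ G.Adj v p)
    {w z1 z2 : V} (hw : G.Adj u w) (hwx : G.Adj w x) (hz1 : G.Adj v z1) (hz1x : G.Adj z1 x)
    (hz2 : G.Adj v z2) (hz2x : G.Adj z2 x) (h1 : w ≠ z1) (h2 : w ≠ z2) (h12 : z1 ≠ z2) :
    False := by
  obtain ⟨hxu, hxv, hux, hvx⟩ := hx
  have nu : ∀ p, G.Adj p x → p ≠ u := by rintro p h rfl; exact hux h
  have nv : ∀ p, G.Adj p x → p ≠ v := by rintro p h rfl; exact hvx h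
  have a1 : ∀ c, G.Adj u c → G.Adj c w → c ≠ v → False := by
    intro c hc hcw hcv
    have hcx : c ≠ x := by rintro rfl; exact hux hc
    by_cases hcz : c = z1
    · have hcz2 : c ≠ z2 := fun h => h12 (hcz.symm.trans h)
      exact K c w x z2 hcv (nu _ hz2x) (nu _ hwx) (nv _ hwx) hxu hxv hcx hcz2 h2 hc hcw hwx
        hz2x.symm hz2.symm
    · exact K c w x z1 hcv (nu _ hz1x) (nu _ hwx) (nv _ hwx) hxu hxv hcx hcz h1 hc hcw hwx
        hz1x.symm hz1.symm
  obtain ⟨c', hxc, hcw⟩ := h3 x w hwx.ne.symm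
  have hcv : G.Adj v c' := by
    rcases hQ c' hxc with h | h
    · exact (a1 c' h hcw (nv _ hxc.symm)).elim
    · exact h
  by_cases hcz : c' = z1
  · have hcz2 : c' ≠ z2 := fun h => h12 (hcz.symm.trans h)
    exact K w c' x z2 (nv _ hwx) (nu _ hz2x) (nu _ hxc.symm) (nv _ hxc.symm) hxu hxv hwx.ne h2
      hcz2 hw hcw.symm hxc.symm hz2x.symm hz2.symm
  · exact K w c' x z1 (nv _ hwx) (nu _ hz1x) (nu _ hxc.symm) (nv _ hxc.symm) hxu hxv hwx.ne h1
      hcz hw hcw.symm hxc.symm hz1x.symm hz1.symm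

variable [Fintype V]

lemma deg3 (hcard : 7 ≤ Fintype.card V) (hn : Joined G (Fintype.card V)) (x s t : V)
    (hst : s ≠ t) (hxs : x ≠ s) (hxt : x ≠ t) : ∃ p, G.Adj x p ∧ p ≠ s ∧ p ≠ t := by
  classical
  by_contra hno
  push Not at hno
  obtain ⟨y, hy⟩ : ∃ y, y ∉ ({x, s, t} : Finset V) := by
    by_contra h
    push Not at h
    have h1 : Fintype.card V ≤ ({x, s, t} : Finset V).card := by
      rw [← Finset.card_univ]
      exact Finset.card_le_card fun y _ => h y
    have h2 : ({x, s, t} : Finset V).card ≤ 3 := Finset.card_le_three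
    omega
  simp only [Finset.mem_insert, Finset.mem_singleton, not_or] at hy
  refine cut hn {x} s t hst (fun h => hxs h.symm) (fun h => hxt h.symm) x rfl y
    (fun h => hy.1 h) hy.2.1 hy.2.2 ?_
  rintro x' rfl y' hxy
  by_cases h : y' = s
  · exact Or.inr (Or.inl h)
  · exact Or.inr (Or.inr (hno y' hxy h))

lemma no_far (hcard : 7 ≤ Fintype.card V) (hn : Joined G (Fintype.card V))
    (h3 : ∀ p q : V, p ≠ q → ∃ z, G.Adj p z ∧ G.Adj z q) {u v : V} (huv : u ≠ v)
    (K : No6 G u v) (x : V) (hx : Far G u v x) : False := by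
  have A : ∀ x y, Far G u v x → Far G u v y → G.Adj x y → ∀ w z, G.Adj u w → G.Adj w x →
      G.Adj v z → G.Adj z y → w = z := by
    intro x y hx hy hxy w z hw hwx hz hzy
    by_contra hne
    refine K w x y z ?_ ?_ hx.1 hx.2.1 hy.1 hy.2.1 ?_ hne ?_ hw hwx hxy hzy.symm hz.symm
    · rintro rfl; exact hx.2.2.2 hwx
    · rintro rfl; exact hy.2.2.1 hzy
    · rintro rfl; exact hy.2.2.1 hw
    · rintro rfl; exact hx.2.2.2 hz
  -- every far vertex has a neighbour adjacent to `u` and one adjacent to `v`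
  have eN : ∀ x, Far G u v x → ∃ w, G.Adj u w ∧ G.Adj w x := fun x hx => h3 u x hx.1.symm
  have eM : ∀ x, Far G u v x → ∃ w, G.Adj v w ∧ G.Adj w x := fun x hx => h3 v x hx.2.1.symm
  -- far vertices are independent
  have B : ∀ x y, Far G u v x → Far G u v y → G.Adj x y → False := by
    intro x y hx hy hxy
    obtain ⟨w, hw, hwx⟩ := eN x hx
    obtain ⟨z, hz, hzy⟩ := eM y hy
    have hwz := A x y hx hy hxy w z hw hwx hz hzy
    subst hwz
    refine cut hn {x' | Far G u v x' ∧ G.Adj w x' ∧ ∃ y', Far G u v y' ∧ G.Adj x' y'} w u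
      hw.ne.symm ?_ ?_ x ⟨hx, hwx, y, hy, hxy⟩ v ?_ hz.ne huv.symm ?_
    · intro h; exact h.1.2.2.1 hw
    · intro h; exact h.1.1 rfl
    · intro h; exact h.1.2.1 rfl
    · rintro x' ⟨hx', hwx', y', hy', hxy'⟩ q hxq
      have hwy' : G.Adj w y' := by
        obtain ⟨z', hz', hzy'⟩ := eM y' hy'
        rw [A x' y' hx' hy' hxy' w z' hw hwx' hz' hzy']
        exact hzy'
      by_cases hqu : q = u
      · exact Or.inr (Or.inr hqu)
      by_cases huq : G.Adj u q
      · exact Or.inr (Or.inl (A x' y' hx' hy' hxy' q w huq hxq.symm hz hwy'))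
      by_cases hvq : G.Adj v q
      · exact Or.inr (Or.inl (A y' x' hy' hx' hxy'.symm w q hw hwy' hvq hxq.symm).symm)
      · have hqv : q ≠ v := by rintro rfl; exact hx'.2.2.2 hxq.symm
        have hq : Far G u v q := ⟨hqu, hqv, huq, hvq⟩
        left
        refine ⟨hq, ?_, x', hx', hxq.symm⟩
        obtain ⟨z', hz', hzq⟩ := eM q hq
        rw [A x' q hx' hq hxq w z' hw hwx' hz' hzq]
        exact hzq
  have hQ : ∀ p, G.Adj x p → G.Adj u p ∨ G.Adj v p := by
    intro p hp
    by_contra h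
    push Not at h
    refine B x p hx ⟨?_, ?_, h.1, h.2⟩ hp
    · rintro rfl; exact hx.2.2.1 hp.symm
    · rintro rfl; exact hx.2.2.2 hp.symm
  have D : ∀ w z, G.Adj u w → G.Adj w x → G.Adj v z → G.Adj z x → w ≠ z → False := by
    intro w z hw hwx hz hzx hwz
    obtain ⟨p, hxp, hpw, hpz⟩ := deg3 hcard hn x w z hwz hwx.ne.symm hzx.ne.symm
    rcases hQ p hxp with h | h
    · exact claimC K.symm h3 hx.symm (fun p hp => (hQ p hp).symm) hz hzx hw hwx h hxp.symm
        hwz.symm hpz.symm hpw.symm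
    · exact claimC K h3 hx hQ hw hwx hz hzx h hxp.symm hwz hpw.symm hpz.symm
  obtain ⟨w, hw, hwx⟩ := eN x hx
  obtain ⟨z, hz, hzx⟩ := eM x hx
  by_cases hwz : w = z
  · subst hwz
    obtain ⟨p, hxp, hpw, -⟩ := deg3 hcard hn x w u hw.ne.symm hwx.ne.symm hx.1
    rcases hQ p hxp with h | h
    · exact D p w h hxp.symm hz hzx hpw
    · exact D w p hw hwx h hxp.symm hpw.symm
  · exact D w z hw hwx hz hzx hwz

/-- `P_3` and `P_n` force `P_6` for `n ≥ 7`. -/
theorem need6 (hcard : 7 ≤ Fintype.card V) (hJ3 : Joined G 3)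
    (hn : Joined G (Fintype.card V)) : Joined G 6 := by
  classical
  have h3 : ∀ p q : V, p ≠ q → ∃ z, G.Adj p z ∧ G.Adj z q := fun p q h =>
    hasPath_three (hJ3 p q h)
  intro u v huv
  by_contra hno
  have K := no6_of huv hno
  have Q : ∀ x, x ≠ u → x ≠ v → G.Adj u x ∨ G.Adj v x := by
    intro x hxu hxv
    by_contra h
    push Not at h
    exact no_far hcard hn h3 huv K x ⟨hxu, hxv, h.1, h.2⟩
  obtain ⟨t, hut, htv⟩ := h3 u v huv
  obtain ⟨l, hl, hnd, hc, hu, hv⟩ := hn u v huv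
  have hall : ∀ z, z ∈ l := by
    intro z
    have h1 : l.toFinset = Finset.univ := by
      apply Finset.eq_univ_of_card
      rw [List.toFinset_card_of_nodup hnd, hl]
    have : z ∈ l.toFinset := by rw [h1]; exact Finset.mem_univ z
    simpa using this
  have hinj : ∀ i j (hi : i < l.length) (hj : j < l.length), l[i] = l[j] → i = j :=
    fun i j hi hj h => (List.Nodup.getElem_inj_iff hnd).1 h
  have hadj : ∀ i (hi : i + 1 < l.length), G.Adj (l[i]'(by omega)) l[i + 1] :=
    fun i hi => List.isChain_iff_getElem.1 hc i hi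
  have h0 : ∀ (h : 0 < l.length), l[0] = u := by
    intro h
    rw [List.head?_eq_getElem?, List.getElem?_eq_getElem h] at hu
    exact Option.some.inj hu
  have hlast : ∀ (h : l.length - 1 < l.length), l[l.length - 1] = v := by
    intro h
    rw [List.getLast?_eq_getElem?, List.getElem?_eq_getElem h] at hv
    exact Option.some.inj hv
  obtain ⟨i, hi, hit⟩ := List.getElem_of_mem (hall t)
  have hlen : 7 ≤ l.length := by omega
  have neu : ∀ j (hj : j < l.length), j ≠ 0 → l[j] ≠ u := by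
    intro j hj hj0 h
    exact hj0 (hinj j 0 hj (by omega) (h.trans (h0 (by omega)).symm))
  have nev : ∀ j (hj : j < l.length), j ≠ l.length - 1 → l[j] ≠ v := by
    intro j hj hj0 h
    exact hj0 (hinj j (l.length - 1) hj (by omega) (h.trans (hlast (by omega)).symm))
  have hi0 : i ≠ 0 := by
    rintro rfl
    rw [h0 hi] at hit
    exact hut.ne hit
  have hil : i ≠ l.length - 1 := by
    intro h
    subst h
    rw [hlast hi] at hit
    exact htv.ne hit.symm
  -- four consecutive vertices of the path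
  have four : ∀ j (hj : j + 3 < l.length), j ≠ 0 → j + 3 ≠ l.length - 1 →
      G.Adj u (l[j]'(by omega)) → G.Adj l[j + 3] v → False := by
    intro j hj hj0 hj3 e1 e2
    refine K (l[j]'(by omega)) (l[j + 1]'(by omega)) (l[j + 2]'(by omega)) l[j + 3]
      (nev _ _ (by omega)) (neu _ _ (by omega)) (neu _ _ (by omega)) (nev _ _ (by omega))
      (neu _ _ (by omega)) (nev _ _ (by omega)) ?_ ?_ ?_ e1 (hadj j (by omega))
      (hadj (j + 1) (by omega)) (hadj (j + 2) (by omega)) e2
    · intro h; have := hinj _ _ _ _ h; omega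
    · intro h; have := hinj _ _ _ _ h; omega
    · intro h; have := hinj _ _ _ _ h; omega
  have four' : ∀ j (hj : j + 3 < l.length), j ≠ 0 → j + 3 ≠ l.length - 1 →
      G.Adj v (l[j]'(by omega)) → G.Adj l[j + 3] u → False := by
    intro j hj hj0 hj3 e1 e2
    refine K.symm (l[j]'(by omega)) (l[j + 1]'(by omega)) (l[j + 2]'(by omega)) l[j + 3]
      (neu _ _ (by omega)) (nev _ _ (by omega)) (nev _ _ (by omega)) (neu _ _ (by omega))
      (nev _ _ (by omega)) (neu _ _ (by omega)) ?_ ?_ ?_ e1 (hadj j (by omega))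
      (hadj (j + 1) (by omega)) (hadj (j + 2) (by omega)) e2
    · intro h; have := hinj _ _ _ _ h; omega
    · intro h; have := hinj _ _ _ _ h; omega
    · intro h; have := hinj _ _ _ _ h; omega
  have hright : ¬ (i + 3 < l.length - 1) := by
    intro h
    rcases Q (l[i + 3]'(by omega)) (neu _ _ (by omega)) (nev _ _ (by omega)) with h' | h'
    · exact four' i (by omega) hi0 (by omega) (by rw [hit]; exact htv.symm) h'.symm
    · exact four i (by omega) hi0 (by omega) (by rw [hit]; exact hut) h'.symm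
  have hleft : i ≤ 3 := by
    by_contra h
    obtain ⟨j, rfl⟩ : ∃ j, i = j + 3 := ⟨i - 3, by omega⟩
    rcases Q (l[j]'(by omega)) (neu _ _ (by omega)) (nev _ _ (by omega)) with h' | h'
    · exact four j (by omega) (by omega) (by omega) h' (by rw [hit]; exact htv)
    · exact four' j (by omega) (by omega) (by omega) h' (by rw [hit]; exact hut.symm)
  have hl7 : l.length = 7 := by omega
  have hi3 : i = 3 := by omega
  subst hi3
  clear four four' hright hleft nev neu hinj hadj h0 hlast hlen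
  match l, hl7 with
  | [u', a, b, t', c, d, v'], _ =>
    simp only [List.head?_cons, Option.some.injEq] at hu
    simp at hv hit
    subst hu; subst hv; subst hit
    simp only [List.isChain_cons_cons, List.isChain_singleton, and_true] at hc
    obtain ⟨c1, c2, c3, c4, c5, c6⟩ := hc
    simp only [List.nodup_cons, List.mem_cons, List.not_mem_nil, or_false, not_or,
      List.nodup_nil, and_true, not_false_eq_true] at hnd
    obtain ⟨⟨n01, n02, n03, n04, n05, n06⟩, ⟨n12, n13, n14, n15, n16⟩, ⟨n23, n24, n25, n26⟩,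
      ⟨n34, n35, n36⟩, ⟨n45, n46⟩, n56⟩ := hnd
    -- a path with the four inner vertices given, as a symmetric check
    have P : ∀ x y z w, x ≠ v' → w ≠ u' → y ≠ u' → y ≠ v' → z ≠ u' → z ≠ v' → x ≠ z → x ≠ w →
        y ≠ w → G.Adj u' x → G.Adj x y → G.Adj y z → G.Adj z w → G.Adj w v' → False := K
    -- the types of `c`, `a`, `b`, `d`
    have qc : G.Adj u' c := by
      rcases Q c (Ne.symm n04) n46 with h | h
      · exact h
      · exact (P a b t' c n16 (Ne.symm n04) (Ne.symm n02) n26 (Ne.symm n03) n36 n13 n14 n24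
          c1 c2 c3 c4 h.symm).elim
    have qb : G.Adj v' b := by
      rcases Q b (Ne.symm n02) n26 with h | h
      · exact (P b t' c d n26 (Ne.symm n05) (Ne.symm n03) n36 (Ne.symm n04) n46 n24 n25 n35
          h c3 c4 c5 c6).elim
      · exact h
    have nva : ¬ G.Adj v' a := fun h =>
      P c t' b a n46 (Ne.symm n01) (Ne.symm n03) n36 (Ne.symm n02) n26 (Ne.symm n24)
        (Ne.symm n14) (Ne.symm n13) qc c4.symm c3.symm c2.symm h.symm
    have nub : ¬ G.Adj u' b := fun h =>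
      P b t' c d n26 (Ne.symm n05) (Ne.symm n03) n36 (Ne.symm n04) n46 n24 n25 n35 h c3 c4 c5 c6
    have nud : ¬ G.Adj u' d := fun h =>
      P d c t' b n56 (Ne.symm n02) (Ne.symm n04) n46 (Ne.symm n03) n36 (Ne.symm n35)
        (Ne.symm n25) (Ne.symm n24) h c5.symm c4.symm c3.symm qb.symm
    have nvc : ¬ G.Adj v' c := fun h =>
      P a b t' c n16 (Ne.symm n04) (Ne.symm n02) n26 (Ne.symm n03) n36 n13 n14 n24
        c1 c2 c3 c4 h.symm
    obtain ⟨e, he1, he2⟩ := h3 u' a n01
    obtain ⟨f, hf1, hf2⟩ := h3 v' d (Ne.symm n56)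
    have e_or : e = t' ∨ e = c := by
      have := hall e
      simp only [List.mem_cons, List.not_mem_nil, or_false] at this
      rcases this with rfl | rfl | rfl | rfl | rfl | rfl | rfl
      · exact (he1.ne rfl).elim
      · exact (he2.ne rfl).elim
      · exact (nub he1).elim
      · exact Or.inl rfl
      · exact Or.inr rfl
      · exact (nud he1).elim
      · exact (nva he2).elim
    have f_or : f = b ∨ f = t' := by
      have := hall f
      simp only [List.mem_cons, List.not_mem_nil, or_false] at this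
      rcases this with rfl | rfl | rfl | rfl | rfl | rfl | rfl
      · exact (nud hf2).elim
      · exact (nva hf1).elim
      · exact Or.inl rfl
      · exact Or.inr rfl
      · exact (nvc hf1).elim
      · exact (hf2.ne rfl).elim
      · exact (hf1.ne rfl).elim
    rcases f_or with rfl | rfl
    · rcases e_or with rfl | rfl
      · exact P e a f d n36 (Ne.symm n05) (Ne.symm n01) n16 (Ne.symm n02) n26 (Ne.symm n23)
          n35 n15 hut he2 c2 hf2 c6
      · exact P t' e a f n36 (Ne.symm n02) (Ne.symm n04) n46 (Ne.symm n01) n16 (Ne.symm n13)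
          (Ne.symm n23) (Ne.symm n24) hut c4 he2 c2 qb.symm
    · exact P a b f d n16 (Ne.symm n05) (Ne.symm n02) n26 (Ne.symm n03) n36 n13 n15 n25
        c1 c2 c3 hf2 c6

end

end Pool.Agent.Q291.PO
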