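import Mathlib
import Pool.Agent.Q291.PO.Base
import Pool.Agent.Q291.PO.Need6

/-!
# The base graph on six vertices
-/

namespace Pool.Agent.Q291.PO

section base6

/-- Neighbour masks of the graph on six vertices. -/
def mask6 : List ℕ := [30, 45, 51, 3, 5, 6]

/-- The graph on six vertices. -/
def G6 : SimpleGraph (Fin 6) where
  Adj a b := (mask6.getD a.val 0).testBit b.val = true
  symm := ⟨by decide +kernel⟩
  loopless := ⟨by decide +kernel⟩

instance : DecidableRel G6.Adj := fun a b =>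
  inferInstanceAs (Decidable ((mask6.getD a.val 0).testBit b.val = true))

/-- Paths. -/
def tab6 : List (List (List (Fin 6))) :=
  [[],
   [[0,2,1], [0,2,5,1], [0,4,2,5,1]],
   [[0,1,2], [0,1,5,2], [0,3,1,5,2]],
   [[0,1,3], [0,2,1,3], [0,2,5,1,3]],
   [[0,2,4], [0,1,2,4], [0,1,5,2,4]],
   [[0,1,5], [0,1,2,5], [0,3,1,2,5]],
   [],
   [],
   [[1,0,2], [1,0,4,2], [1,3,0,4,2]],
   [[1,0,3], [1,2,0,3], [1,2,4,0,3]],
   [[1,0,4], [1,0,2,4], [1,3,0,2,4]],
   [[1,2,5], [1,0,2,5], [1,0,4,2,5]],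
   [],
   [],
   [],
   [[2,0,3], [2,0,1,3], [2,4,0,1,3]],
   [[2,0,4], [2,1,0,4], [2,1,3,0,4]],
   [[2,1,5], [2,0,1,5], [2,0,3,1,5]],
   [],
   [],
   [],
   [],
   [[3,0,4], [3,0,2,4], [3,0,1,2,4]],
   [[3,1,5], [3,0,1,5], [3,0,1,2,5]],
   [],
   [],
   [],
   [],
   [],
   [[4,2,5], [4,0,1,5], [4,0,1,2,5]],
   [],
   [],
   [],
   [],
   [],
   []]

lemma test6 : ∀ u v : Fin 6, u < v → ∀ k : Fin 3,
    test (fun a b => (mask6.getD a.val 0).testBit b.val) u v ([3, 4, 5].getD k.val 0)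
      ((tab6.getD (6 * u.val + v.val) []).getD k.val []) = true := by
  decide +kernel

lemma joined6 {i : ℕ} (h3 : 3 ≤ i) (h5 : i ≤ 5) : Joined G6 i := by
  obtain ⟨k, rfl⟩ : ∃ k : Fin 3, [3, 4, 5].getD k.val 0 = i := by
    interval_cases i
    · exact ⟨0, rfl⟩
    · exact ⟨1, rfl⟩
    · exact ⟨2, rfl⟩
  exact joined_of_lt fun u v huv => test_hasPath (fun a b h => h) (test6 u v huv k)

lemma not6 : ¬ HasPath G6 0 1 6 := by
  intro h
  obtain ⟨a, b, c, d, h1, h2, h3, h4, h5, h6⟩ := hasPath_six h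
  revert a b c d
  decide +kernel

end base6

end Pool.Agent.Q291.PO
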