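import Mathlib
import Pool.Agent.Q291.PO.Core
import Pool.Agent.Q291.PO.Need6

/-!
# `P_3` and `P_n` force `P_7` for `n ≥ 8`
-/

namespace Pool.Agent.Q291.PO

section basic7

variable {V : Type*} {G : SimpleGraph V}

lemma hasPath_seven {u v : V} (h : HasPath G u v 7) :
    ∃ a b c d e, [u, a, b, c, d, e, v].Nodup ∧ G.Adj u a ∧ G.Adj a b ∧ G.Adj b c ∧
      G.Adj c d ∧ G.Adj d e ∧ G.Adj e v := by
  obtain ⟨l, hl, hn, hc, hu, hv⟩ := h
  match l, hl with
  | [x, a, b, c, d, e, y], _ =>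
    simp at hu hv
    subst hu; subst hv
    simp at hc
    exact ⟨a, b, c, d, e, hn, hc.1, hc.2.1, hc.2.2.1, hc.2.2.2.1, hc.2.2.2.2.1, hc.2.2.2.2.2⟩

/-- One of `a`, `e` is a neighbour of `u` and the other one of `v`. -/
def NM (G : SimpleGraph V) (u v a e : V) : Prop :=
  (G.Adj u a ∧ G.Adj v e) ∨ (G.Adj v a ∧ G.Adj u e)

/-- No path with five vertices outside `u`, `v` joins a neighbour of `u` to one of `v`. -/
def No7 (G : SimpleGraph V) (u v : V) : Prop :=
  ∀ a b c d e, [u, v, a, b, c, d, e].Nodup → G.Adj a b → G.Adj b c → G.Adj c d → G.Adj d e →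
    ¬ NM G u v a e

lemma No7.symm {u v : V} (h : No7 G u v) : No7 G v u := by
  intro a b c d e hn h1 h2 h3 h4 h5
  refine h a b c d e ?_ h1 h2 h3 h4 (Or.symm h5)
  have : [u, v, a, b, c, d, e].Perm [v, u, a, b, c, d, e] := List.Perm.swap _ _ _
  exact this.nodup_iff.2 hn

lemma no7_of {u v : V} (h : ¬ HasPath G u v 7) : No7 G u v := by
  intro a b c d e hn h1 h2 h3 h4 h5
  apply h
  rcases h5 with ⟨h5, h6⟩ | ⟨h5, h6⟩
  · refine ⟨[u, a, b, c, d, e, v], rfl, ?_, by simp [h1, h2, h3, h4, h5, h6.symm], rfl, rfl⟩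
    have : [u, v, a, b, c, d, e].Perm [u, a, b, c, d, e, v] := by
      apply List.Perm.cons
      exact (List.perm_append_comm (l₁ := [v]) (l₂ := [a, b, c, d, e]))
    exact this.nodup_iff.1 hn
  · refine ⟨[u, e, d, c, b, a, v], rfl, ?_,
      by simp [h1.symm, h2.symm, h3.symm, h4.symm, h5.symm, h6], rfl, rfl⟩
    have : [u, v, a, b, c, d, e].Perm [u, e, d, c, b, a, v] := by
      apply List.Perm.cons
      exact (List.reverse_perm [e, d, c, b, a, v]).symm.trans (List.Perm.refl _) |>.symm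
    exact this.nodup_iff.1 hn

end basic7

section far

variable {V : Type*} [Fintype V] {G : SimpleGraph V} {u v : V}

/-- The general hypotheses. -/
structure Hyp (G : SimpleGraph V) (u v : V) : Prop where
  hcard : 8 ≤ Fintype.card V
  hn : Joined G (Fintype.card V)
  h3 : ∀ p q : V, p ≠ q → ∃ z, G.Adj p z ∧ G.Adj z q
  huv : u ≠ v
  K : No7 G u v

lemma Hyp.symm (h : Hyp G u v) : Hyp G v u := ⟨h.hcard, h.hn, h.h3, h.huv.symm, h.K.symm⟩

lemma Hyp.deg (h : Hyp G u v) (x s t : V) (hst : s ≠ t) (hxs : x ≠ s) (hxt : x ≠ t) :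
    ∃ p, G.Adj x p ∧ p ≠ s ∧ p ≠ t :=
  deg3 (by have := h.hcard; omega) h.hn x s t hst hxs hxt

lemma Hyp.eN (h : Hyp G u v) {x : V} (hx : Far G u v x) : ∃ w, G.Adj u w ∧ G.Adj w x :=
  h.h3 u x hx.1.symm

lemma Hyp.eM (h : Hyp G u v) {x : V} (hx : Far G u v x) : ∃ w, G.Adj v w ∧ G.Adj w x :=
  h.h3 v x hx.2.1.symm

/-- Step A: path of three far vertices. -/
lemma Hyp.A (h : Hyp G u v) {x y z : V} (hx : Far G u v x) (hy : Far G u v y)
    (hz : Far G u v z) (hxy : G.Adj x y) (hyz : G.Adj y z) (hxz : x ≠ z) {w w' : V}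
    (hw : G.Adj u w) (hwx : G.Adj w x) (hw' : G.Adj v w') (hwz : G.Adj w' z) : w = w' := by
  by_contra hne
  obtain ⟨x1, x2, x3, x4⟩ := hx
  obtain ⟨y1, y2, y3, y4⟩ := hy
  obtain ⟨z1, z2, z3, z4⟩ := hz
  have huv := h.huv
  exact h.K w x y z w' (by (simp only [List.nodup_cons, List.mem_cons, List.not_mem_nil, or_false, not_or, List.nodup_nil, and_true, not_false_eq_true]); (repeat' apply And.intro); (all_goals grind [SimpleGraph.irrefl, SimpleGraph.adj_comm])) hwx hxy hyz hwz.symm (Or.inl ⟨hw, hw'⟩)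

end far

end Pool.Agent.Q291.PO
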