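import Mathlib
import Pool.Agent.Q291.PO.Base
import Pool.Agent.Q291.PO.Need7

/-!
# The base graph on seven vertices
-/

namespace Pool.Agent.Q291.PO

section base7

/-- Neighbour masks of the graph on seven vertices. -/
def mask7 : List ℕ := [58, 117, 34, 33, 67, 79, 50]

/-- The graph on seven vertices. -/
def G7 : SimpleGraph (Fin 7) where
  Adj a b := (mask7.getD a.val 0).testBit b.val = true
  symm := ⟨by decide +kernel⟩
  loopless := ⟨by decide +kernel⟩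

instance : DecidableRel G7.Adj := fun a b =>
  inferInstanceAs (Decidable ((mask7.getD a.val 0).testBit b.val = true))

/-- Paths. -/
def tab7 : List (List (List (Fin 7))) :=
  [[],
   [[0,4,1], [0,3,5,1], [0,3,5,2,1], [0,3,5,6,4,1]],
   [[0,1,2], [0,1,5,2], [0,1,6,5,2], [0,1,4,6,5,2]],
   [[0,5,3], [0,1,5,3], [0,1,2,5,3], [0,1,4,6,5,3]],
   [[0,1,4], [0,1,6,4], [0,1,5,6,4], [0,1,2,5,6,4]],
   [[0,1,5], [0,1,2,5], [0,1,4,6,5], [0,4,6,1,2,5]],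
   [[0,1,6], [0,1,4,6], [0,1,2,5,6], [0,3,5,1,4,6]],
   [],
   [],
   [[1,5,2], [1,0,5,2], [1,0,3,5,2], [1,0,4,6,5,2]],
   [[1,0,3], [1,0,5,3], [1,2,5,0,3], [1,0,4,6,5,3]],
   [[1,0,4], [1,5,0,4], [1,0,5,6,4], [1,0,3,5,6,4]],
   [[1,0,5], [1,0,3,5], [1,0,4,6,5], [1,6,4,0,3,5]],
   [[1,4,6], [1,0,4,6], [1,0,3,5,6], [1,2,5,0,4,6]],
   [],
   [],
   [],
   [[2,5,3], [2,1,0,3], [2,1,0,5,3], [2,1,4,0,5,3]],
   [[2,1,4], [2,1,0,4], [2,1,5,0,4], [2,1,0,5,6,4]],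
   [[2,1,5], [2,1,0,5], [2,1,0,3,5], [2,1,0,4,6,5]],
   [[2,1,6], [2,1,4,6], [2,1,0,4,6], [2,1,0,3,5,6]],
   [],
   [],
   [],
   [],
   [[3,0,4], [3,0,1,4], [3,0,1,6,4], [3,0,1,5,6,4]],
   [[3,0,5], [3,0,1,5], [3,0,1,2,5], [3,0,1,4,6,5]],
   [[3,5,6], [3,0,1,6], [3,0,1,4,6], [3,0,1,2,5,6]],
   [],
   [],
   [],
   [],
   [],
   [[4,0,5], [4,0,1,5], [4,0,1,2,5], [4,6,1,0,3,5]],
   [[4,1,6], [4,0,1,6], [4,0,1,5,6], [4,0,1,2,5,6]],
   [],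
   [],
   [],
   [],
   [],
   [],
   [[5,1,6], [5,0,1,6], [5,0,1,4,6], [5,2,1,0,4,6]],
   [],
   [],
   [],
   [],
   [],
   [],
   []]

lemma test7 : ∀ u v : Fin 7, u < v → ∀ k : Fin 4,
    test (fun a b => (mask7.getD a.val 0).testBit b.val) u v ([3, 4, 5, 6].getD k.val 0)
      ((tab7.getD (7 * u.val + v.val) []).getD k.val []) = true := by
  decide +kernel

lemma joined7 {i : ℕ} (h3 : 3 ≤ i) (h6 : i ≤ 6) : Joined G7 i := by
  obtain ⟨k, rfl⟩ : ∃ k : Fin 4, [3, 4, 5, 6].getD k.val 0 = i := by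
    interval_cases i
    · exact ⟨0, rfl⟩
    · exact ⟨1, rfl⟩
    · exact ⟨2, rfl⟩
    · exact ⟨3, rfl⟩
  exact joined_of_lt fun u v huv => test_hasPath (fun a b h => h) (test7 u v huv k)

lemma not7 : ¬ HasPath G7 0 1 7 := by
  intro h
  obtain ⟨a, b, c, d, e, h1, h2, h3, h4, h5, h6, h7⟩ := hasPath_seven h
  revert h1 h2 h3 h4 h5 h6 h7
  revert a b c d e
  decide +kernel

end base7

end Pool.Agent.Q291.PO
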