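import Mathlib
import Pool.Agent.Q291.PO.Core

/-!
# `P_3` and `P_n` without `P_5` force `n ≥ 11`
-/

namespace Pool.Agent.Q291.PO

section

variable {V : Type*} [Fintype V] (G : SimpleGraph V)

/-- The main case: every neighbour of `u` (other than `v`) is a neighbour of `v`. -/
lemma main (hcard : 6 ≤ Fintype.card V) (h3 : ∀ p q : V, p ≠ q → ∃ z, G.Adj p z ∧ G.Adj z q)
    (C : ∀ (X : Set V) (s t : V), s ≠ t → s ∉ X → t ∉ X → ∀ x, x ∈ X → ∀ y, y ∉ X →
      y ≠ s → y ≠ t → (∀ x ∈ X, ∀ y, G.Adj x y → y ∈ X ∨ y = s ∨ y = t) → False)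
    (u v : V) (huv : u ≠ v)
    (K : ∀ a b c, G.Adj u a → G.Adj a b → G.Adj b c → G.Adj c v → a ≠ v → c ≠ u → a ≠ c →
      b ≠ u → b ≠ v → False)
    (hB : ∀ a, G.Adj u a → a ≠ v → G.Adj v a) : 11 ≤ Fintype.card V := by
  classical
  -- F1
  have F1 : ∀ a c w, (G.Adj u a ∧ a ≠ v) → G.Adj v c → c ≠ u → c ≠ a → G.Adj w a → G.Adj w c →
      w ≠ u → w ≠ v → False := by
    intro a c w ha hc hcu hca h1 h2 hwu hwv
    exact K a w c ha.1 h1.symm h2 hc.symm ha.2 hcu (Ne.symm hca) hwu hwv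
  obtain ⟨b0, hb01, hb02⟩ := h3 u v huv
  have hb0 : G.Adj u b0 ∧ b0 ≠ v := ⟨hb01, hb02.ne⟩
  have F2 : ∀ w, (w ≠ u ∧ w ≠ v ∧ ¬ G.Adj u w ∧ ¬ G.Adj v w) →
      ∃ a, (G.Adj u a ∧ a ≠ v) ∧ G.Adj w a := by
    intro w hw
    obtain ⟨z, hz1, hz2⟩ := h3 w u hw.1
    refine ⟨z, ⟨hz2.symm, ?_⟩, hz1⟩
    rintro rfl
    exact hw.2.2.2 hz1.symm
  have F3 : ∀ w c, (w ≠ u ∧ w ≠ v ∧ ¬ G.Adj u w ∧ ¬ G.Adj v w) →
      (c ≠ u ∧ G.Adj v c ∧ ¬ G.Adj u c) → False := by
    intro w c hw hc
    obtain ⟨a, ha, hwa⟩ := F2 w hw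
    have hcv : c ≠ v := hc.2.1.ne.symm
    have step1 : ∀ w', (w' ≠ u ∧ w' ≠ v ∧ ¬ G.Adj u w' ∧ ¬ G.Adj v w') →
        ∀ a', (G.Adj u a' ∧ a' ≠ v) → G.Adj w' a' → G.Adj a' c := by
      intro w' hw' a' ha' hwa'
      have hne : w' ≠ c := by
        rintro rfl
        exact hw'.2.2.2 hc.2.1
      obtain ⟨z, hz1, hz2⟩ := h3 w' c hne
      have hzu : z ≠ u := by
        rintro rfl
        exact hw'.2.2.1 hz1.symm
      have hzv : z ≠ v := by
        rintro rfl
        exact hw'.2.2.2 hz1.symm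
      by_cases hza : z = a'
      · rw [← hza]; exact hz2
      · exfalso
        by_cases hvz : G.Adj v z
        · exact F1 a' z w' ha' hvz hzu hza hwa' hz1 hw'.1 hw'.2.1
        · have huz : ¬ G.Adj u z := fun h => hvz (hB z h hzv)
          obtain ⟨a'', ha'', hz''⟩ := F2 z ⟨hzu, hzv, huz, hvz⟩
          have hca : c ≠ a'' := by
            rintro rfl
            exact hc.2.2 ha''.1
          exact F1 a'' c z ha'' hc.2.1 hc.1 hca hz'' hz2 hzu hzv
    have hac := step1 w hw a ha hwa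
    have step2 : ∀ w', (w' ≠ u ∧ w' ≠ v ∧ ¬ G.Adj u w' ∧ ¬ G.Adj v w') →
        ∀ a', (G.Adj u a' ∧ a' ≠ v) → G.Adj w' a' → a' = a := by
      intro w' hw' a' ha' hwa'
      by_contra hne
      have h1 := step1 w' hw' a' ha' hwa'
      exact F1 a a' c ha (hB a' ha'.1 ha'.2) ha'.1.ne.symm hne hac.symm h1.symm hc.1 hcv
    refine C {x | x ≠ u ∧ x ≠ v ∧ ¬ G.Adj u x ∧ ¬ G.Adj v x} a u ha.1.ne.symm ?_ ?_ w hw v ?_
      ha.2.symm huv.symm ?_
    · intro h; exact h.2.2.1 ha.1
    · intro h; exact h.1 rfl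
    · intro h; exact h.2.1 rfl
    · intro x hx y hxy
      by_cases hyu : y = u
      · exact Or.inr (Or.inr hyu)
      by_cases hyv : y = v
      · subst hyv; exact absurd hxy.symm hx.2.2.2
      by_cases huy : G.Adj u y
      · exact Or.inr (Or.inl (step2 x hx y ⟨huy, hyv⟩ hxy))
      by_cases hvy : G.Adj v y
      · exfalso
        obtain ⟨a', ha', hxa'⟩ := F2 x hx
        have hya : y ≠ a' := by
          rintro rfl
          exact huy ha'.1
        exact F1 a' y x ha' hvy hyu hya hxa' hxy hx.1 hx.2.1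
      · exact Or.inl ⟨hyu, hyv, huy, hvy⟩
  by_cases hR : ∃ w, w ≠ u ∧ w ≠ v ∧ ¬ G.Adj u w ∧ ¬ G.Adj v w
  · -- F5
    obtain ⟨w0, hw0⟩ := hR
    have hD : ∀ c, c ≠ u → G.Adj v c → G.Adj u c := by
      intro c h1 h2
      by_contra h
      exact F3 w0 c hw0 ⟨h1, h2, h⟩
    -- every vertex is u, v, in B or in R
    have hcase : ∀ y, y ≠ u → y ≠ v → (G.Adj u y ∧ y ≠ v) ∨
        (y ≠ u ∧ y ≠ v ∧ ¬ G.Adj u y ∧ ¬ G.Adj v y) := by
      intro y h1 h2
      by_cases h : G.Adj u y
      · exact Or.inl ⟨h, h2⟩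
      · exact Or.inr ⟨h1, h2, h, fun h' => h (hD y h1 h')⟩
    have huniq : ∀ w a a', w ≠ u → w ≠ v → (G.Adj u a ∧ a ≠ v) → (G.Adj u a' ∧ a' ≠ v) →
        G.Adj w a → G.Adj w a' → a' = a := by
      intro w a a' h1 h2 ha ha' h3' h4
      by_contra hne
      exact F1 a a' w ha (hB a' ha'.1 ha'.2) ha'.1.ne.symm hne h3' h4 h1 h2
    have hclosed : ∀ x, (x ≠ u ∧ x ≠ v ∧ ¬ G.Adj u x ∧ ¬ G.Adj v x) → ∀ y, G.Adj x y →
        (y ≠ u ∧ y ≠ v ∧ ¬ G.Adj u y ∧ ¬ G.Adj v y) ∨ (G.Adj u y ∧ y ≠ v) := by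
      intro x hx y hxy
      have h1 : y ≠ u := by rintro rfl; exact hx.2.2.1 hxy.symm
      have h2 : y ≠ v := by rintro rfl; exact hx.2.2.2 hxy.symm
      rcases hcase y h1 h2 with h | h
      · exact Or.inr h
      · exact Or.inl h
    have hRB : ∀ b, (G.Adj u b ∧ b ≠ v) → ∃ w, (w ≠ u ∧ w ≠ v ∧ ¬ G.Adj u w ∧ ¬ G.Adj v w) ∧
        G.Adj w b := by
      intro b hb
      by_contra hno
      push Not at hno
      obtain ⟨a, ha, hwa⟩ := F2 w0 hw0
      have claim : ∀ w, (w ≠ u ∧ w ≠ v ∧ ¬ G.Adj u w ∧ ¬ G.Adj v w) →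
          ∀ a', (G.Adj u a' ∧ a' ≠ v) → G.Adj w a' → G.Adj a' b := by
        intro w hw a' ha' hwa'
        have hne : w ≠ b := by
          rintro rfl
          exact hw.2.2.1 hb.1
        obtain ⟨z, hz1, hz2⟩ := h3 w b hne
        rcases hclosed w hw z hz1 with h | h
        · exact absurd hz2 (hno z h)
        · rw [← huniq w a' z hw.1 hw.2.1 ha' h hwa' hz1]; exact hz2
      have hab := claim w0 hw0 a ha hwa
      refine C {x | x ≠ u ∧ x ≠ v ∧ ¬ G.Adj u x ∧ ¬ G.Adj v x} a u ha.1.ne.symm ?_ ?_ w0 hw0 v ?_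
        ha.2.symm huv.symm ?_
      · intro h; exact h.2.2.1 ha.1
      · intro h; exact h.1 rfl
      · intro h; exact h.2.1 rfl
      · intro x hx y hxy
        rcases hclosed x hx y hxy with h | h
        · exact Or.inl h
        · have h1 := claim x hx y h hxy
          exact Or.inr (Or.inl (huniq b a y hb.1.ne.symm hb.2 ha h hab.symm h1.symm))
    have hR2 : ∀ b w, (G.Adj u b ∧ b ≠ v) → (w ≠ u ∧ w ≠ v ∧ ¬ G.Adj u w ∧ ¬ G.Adj v w) →
        G.Adj w b → ∃ w', (w' ≠ u ∧ w' ≠ v ∧ ¬ G.Adj u w' ∧ ¬ G.Adj v w') ∧ G.Adj w' b ∧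
          w' ≠ w := by
      intro b w hb hw hwb
      obtain ⟨z, hz1, hz2⟩ := h3 w b hwb.ne
      rcases hclosed w hw z hz1 with h | h
      · exact ⟨z, h, hz2, hz1.ne.symm⟩
      · have := huniq w b z hw.1 hw.2.1 hb h hwb hz1
        subst this
        exact absurd hz2 (G.irrefl)
    set B : Finset V := Finset.univ.filter (fun b => G.Adj u b ∧ b ≠ v) with hBdef
    set R : V → Finset V := fun b => Finset.univ.filter
      (fun w => (w ≠ u ∧ w ≠ v ∧ ¬ G.Adj u w ∧ ¬ G.Adj v w) ∧ G.Adj w b) with hRdef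
    have hBmem : ∀ b, b ∈ B ↔ (G.Adj u b ∧ b ≠ v) := by intro b; simp [hBdef]
    have hRmem : ∀ b w, w ∈ R b ↔ (w ≠ u ∧ w ≠ v ∧ ¬ G.Adj u w ∧ ¬ G.Adj v w) ∧ G.Adj w b := by
      intro b w; simp [hRdef]
    have hB3 : 3 ≤ B.card := by
      by_contra hlt
      have hcases : B.card = 0 ∨ B.card = 1 ∨ B.card = 2 := by omega
      rcases hcases with h | h | h
      · rw [Finset.card_eq_zero] at h
        have : b0 ∈ B := (hBmem b0).2 hb0
        rw [h] at this
        simp at this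
      · obtain ⟨a, ha⟩ := Finset.card_eq_one.1 h
        have haB : (G.Adj u a ∧ a ≠ v) := (hBmem a).1 (by rw [ha]; simp)
        refine C {x | x ≠ u ∧ x ≠ v ∧ ¬ G.Adj u x ∧ ¬ G.Adj v x} a u haB.1.ne.symm ?_ ?_ w0 hw0
          v ?_ haB.2.symm huv.symm ?_
        · intro h; exact h.2.2.1 haB.1
        · intro h; exact h.1 rfl
        · intro h; exact h.2.1 rfl
        · intro x hx y hxy
          rcases hclosed x hx y hxy with h | h
          · exact Or.inl h
          · have : y ∈ B := (hBmem y).2 h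
            rw [ha] at this
            exact Or.inr (Or.inl (by simpa using this))
      · obtain ⟨a, b, hab, hab'⟩ := Finset.card_eq_two.1 h
        have haB : (G.Adj u a ∧ a ≠ v) := (hBmem a).1 (by rw [hab']; simp)
        have hbB : (G.Adj u b ∧ b ≠ v) := (hBmem b).1 (by rw [hab']; simp)
        refine C {x | x ≠ u ∧ x ≠ v ∧ ¬ G.Adj u x ∧ ¬ G.Adj v x} a b hab ?_ ?_ w0 hw0
          u ?_ haB.1.ne hbB.1.ne ?_
        · intro h; exact h.2.2.1 haB.1
        · intro h; exact h.2.2.1 hbB.1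
        · intro h; exact h.1 rfl
        · intro x hx y hxy
          rcases hclosed x hx y hxy with h | h
          · exact Or.inl h
          · have : y ∈ B := (hBmem y).2 h
            rw [hab'] at this
            exact Or.inr (by simpa using this)
    have hR2' : ∀ b ∈ B, 2 ≤ (R b).card := by
      intro b hb
      obtain ⟨w, hw, hwb⟩ := hRB b ((hBmem b).1 hb)
      obtain ⟨w', hw', hwb', hne⟩ := hR2 b w ((hBmem b).1 hb) hw hwb
      have h1 : ({w, w'} : Finset V) ⊆ R b := by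
        intro x hx
        simp only [Finset.mem_insert, Finset.mem_singleton] at hx
        rcases hx with rfl | rfl
        · exact (hRmem b _).2 ⟨hw, hwb⟩
        · exact (hRmem b _).2 ⟨hw', hwb'⟩
      calc 2 = ({w, w'} : Finset V).card := (Finset.card_pair hne.symm).symm
        _ ≤ _ := Finset.card_le_card h1
    have hdisj : ∀ b ∈ B, ∀ b' ∈ B, b ≠ b' → Disjoint (R b) (R b') := by
      intro b hb b' hb' hne
      rw [Finset.disjoint_left]
      intro w hw hw'
      have h1 := (hRmem b w).1 hw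
      have h2 := (hRmem b' w).1 hw'
      exact hne (huniq w b' b h1.1.1 h1.1.2.1 ((hBmem b').1 hb') ((hBmem b).1 hb) h2.2 h1.2)
    have hbu : (B.biUnion R).card = ∑ b ∈ B, (R b).card := Finset.card_biUnion hdisj
    have hsum : 2 * B.card ≤ (B.biUnion R).card := by
      rw [hbu]
      calc 2 * B.card = ∑ _b ∈ B, 2 := by simp [mul_comm]
        _ ≤ _ := Finset.sum_le_sum hR2'
    have hd1 : Disjoint B (B.biUnion R) := by
      rw [Finset.disjoint_left]
      intro w hw hw'
      obtain ⟨b, _, hb⟩ := Finset.mem_biUnion.1 hw'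
      exact ((hRmem b w).1 hb).1.2.2.1 ((hBmem w).1 hw).1
    have hd2 : Disjoint ({u, v} : Finset V) (B ∪ B.biUnion R) := by
      rw [Finset.disjoint_left]
      intro w hw hw'
      simp only [Finset.mem_insert, Finset.mem_singleton] at hw
      rcases Finset.mem_union.1 hw' with h | h
      · have h1 := (hBmem w).1 h
        rcases hw with rfl | rfl
        · exact G.irrefl h1.1
        · exact h1.2 rfl
      · obtain ⟨b, _, hb⟩ := Finset.mem_biUnion.1 h
        have h1 := ((hRmem b w).1 hb).1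
        rcases hw with rfl | rfl
        · exact h1.1 rfl
        · exact h1.2.1 rfl
    have h1 : (({u, v} : Finset V) ∪ (B ∪ B.biUnion R)).card ≤ Fintype.card V :=
      Finset.card_le_univ _
    rw [Finset.card_union_of_disjoint hd2, Finset.card_union_of_disjoint hd1,
      Finset.card_pair huv] at h1
    omega
  · -- F4
    exfalso
    push Not at hR
    have hcase : ∀ y, y ≠ u → y ≠ v → G.Adj v y := by
      intro y h1 h2
      by_cases h : G.Adj u y
      · exact hB y h h2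
      · exact hR y h1 h2 h
    have hBD : ∀ a c, (G.Adj u a ∧ a ≠ v) → (c ≠ u ∧ G.Adj v c ∧ ¬ G.Adj u c) →
        G.Adj a c → False := by
      intro a c ha hc hac
      have hcv : c ≠ v := hc.2.1.ne.symm
      refine C {c} a v ha.2 ?_ ?_ c rfl u ?_ ha.1.ne huv ?_
      · intro h; exact G.irrefl (h ▸ hac)
      · intro h; exact hcv (Set.mem_singleton_iff.1 h).symm
      · intro h; exact hc.1 (Set.mem_singleton_iff.1 h).symm
      · intro x hx y hxy
        rw [Set.mem_singleton_iff] at hx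
        subst hx
        by_cases hyv : y = v
        · exact Or.inr (Or.inr hyv)
        by_cases hya : y = a
        · exact Or.inr (Or.inl hya)
        exfalso
        have hyu : y ≠ u := by
          rintro rfl
          exact hc.2.2 hxy.symm
        exact F1 a y x ha (hcase y hyu hyv) hyu hya hac.symm hxy hc.1 hcv
    by_cases hD : ∃ c, c ≠ u ∧ G.Adj v c ∧ ¬ G.Adj u c
    · obtain ⟨c, hc⟩ := hD
      refine C {x | x ≠ u ∧ G.Adj v x ∧ ¬ G.Adj u x} v u huv.symm ?_ ?_ c hc b0 ?_ hb0.2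
        hb01.ne.symm ?_
      · intro h; exact G.irrefl h.2.1
      · intro h; exact h.1 rfl
      · intro h; exact h.2.2 hb01
      · intro x hx y hxy
        by_cases hyv : y = v
        · exact Or.inr (Or.inl hyv)
        by_cases hyu : y = u
        · exact Or.inr (Or.inr hyu)
        by_cases huy : G.Adj u y
        · exact (hBD y x ⟨huy, hyv⟩ hx hxy.symm).elim
        · exact Or.inl ⟨hyu, hcase y hyu hyv, huy⟩
    · push Not at hD
      have hall : ∀ y, y ≠ u → y ≠ v → (G.Adj u y ∧ y ≠ v) := fun y h1 h2 =>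
        ⟨hD y h1 (hcase y h1 h2), h2⟩
      have huniq : ∀ w a a', w ≠ u → w ≠ v → (G.Adj u a ∧ a ≠ v) → (G.Adj u a' ∧ a' ≠ v) →
          G.Adj w a → G.Adj w a' → a' = a := by
        intro w a a' h1 h2 ha ha' h3' h4
        by_contra hne
        exact F1 a a' w ha (hB a' ha'.1 ha'.2) ha'.1.ne.symm hne h3' h4 h1 h2
      -- there is a vertex outside {u, v, b0} not adjacent to b0
      have hex : ∃ y, y ≠ u ∧ y ≠ v ∧ y ≠ b0 ∧ ¬ G.Adj b0 y := by
        by_contra hno
        push Not at hno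
        -- then all others are equal
        have hle : ∃ b1, ∀ y, y ≠ u → y ≠ v → y ≠ b0 → y = b1 := by
          by_cases h : ∃ b1, b1 ≠ u ∧ b1 ≠ v ∧ b1 ≠ b0
          · obtain ⟨b1, h1, h2, h4⟩ := h
            refine ⟨b1, fun y hy1 hy2 hy3 => ?_⟩
            exact huniq b0 b1 y hb01.ne.symm hb0.2 (hall b1 h1 h2) (hall y hy1 hy2)
              (hno b1 h1 h2 h4) (hno y hy1 hy2 hy3)
          · push Not at h
            exact ⟨b0, fun y hy1 hy2 hy3 => h y hy1 hy2⟩
        obtain ⟨b1, hb1⟩ := hle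
        have hsub : (Finset.univ : Finset V) ⊆ {u, v, b0, b1} := by
          intro y _
          simp only [Finset.mem_insert, Finset.mem_singleton]
          by_cases h1 : y = u
          · exact Or.inl h1
          by_cases h2 : y = v
          · exact Or.inr (Or.inl h2)
          by_cases h3' : y = b0
          · exact Or.inr (Or.inr (Or.inl h3'))
          · exact Or.inr (Or.inr (Or.inr (hb1 y h1 h2 h3')))
        have := Finset.card_le_card hsub
        have h4 : ({u, v, b0, b1} : Finset V).card ≤ 4 := Finset.card_le_four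
        rw [Finset.card_univ] at this
        omega
      obtain ⟨y0, hy1, hy2, hy3, hy4⟩ := hex
      refine C {x | x = b0 ∨ ((G.Adj u x ∧ x ≠ v) ∧ G.Adj b0 x)} u v huv ?_ ?_ b0 (Or.inl rfl) y0
        ?_ hy1 hy2 ?_
      · rintro (h | h)
        · exact hb01.ne h
        · exact G.irrefl h.1.1
      · rintro (h | h)
        · exact hb0.2 h.symm
        · exact h.1.2 rfl
      · rintro (h | h)
        · exact hy3 h
        · exact hy4 h.2
      · intro x hx y hxy
        by_cases hyu : y = u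
        · exact Or.inr (Or.inl hyu)
        by_cases hyv : y = v
        · exact Or.inr (Or.inr hyv)
        left
        rcases hx with rfl | ⟨hx1, hx2⟩
        · exact Or.inr ⟨hall y hyu hyv, hxy⟩
        · left
          exact huniq x b0 y hx1.1.ne.symm hx1.2 hb0 (hall y hyu hyv) hx2.symm hxy

/-- A graph with `P_3` and `P_n` on `n ≥ 6` vertices without `P_5` has at least `11` vertices. -/
theorem need (hcard : 6 ≤ Fintype.card V) (h3 : Joined G 3) (hn : Joined G (Fintype.card V))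
    (h5 : ¬ Joined G 5) : 11 ≤ Fintype.card V := by
  classical
  unfold Joined at h5
  push Not at h5
  obtain ⟨u, v, huv, hno⟩ := h5
  have H3 : ∀ p q : V, p ≠ q → ∃ z, G.Adj p z ∧ G.Adj z q := fun p q hpq =>
    hasPath_three (h3 p q hpq)
  have C := cut (G := G) hn
  have key : ∀ u v : V, u ≠ v → ¬ HasPath G u v 5 → ∀ a b c, G.Adj u a → G.Adj a b →
      G.Adj b c → G.Adj c v → a ≠ v → c ≠ u → a ≠ c → b ≠ u → b ≠ v → False := by
    intro u v huv hno a b c h1 h2 h3' h4 h5' h6 h7 h8 h9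
    refine hno (hasPath_five' ?_ h1 h2 h3' h4)
    have e1 := h1.ne
    have e2 := h2.ne
    have e3 := h3'.ne
    have e4 := h4.ne
    simp only [List.nodup_cons, List.mem_cons, List.not_mem_nil, or_false, not_or,
      not_false_eq_true, List.nodup_nil, and_true]
    exact ⟨⟨e1, h8.symm, h6.symm, huv⟩, ⟨e2, h7, h5'⟩, ⟨e3, h9⟩, e4⟩
  have hno' : ¬ HasPath G v u 5 := fun h => hno h.symm
  by_cases hB : ∀ a, G.Adj u a → a ≠ v → G.Adj v a
  · exact main G hcard H3 C u v huv (key u v huv hno) hB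
  · push Not at hB
    obtain ⟨a, ha1, ha2, ha3⟩ := hB
    refine main G hcard H3 C v u huv.symm (key v u huv.symm hno') ?_
    intro c hc1 hc2
    by_contra hc3
    have hac : a ≠ c := by
      rintro rfl
      exact hc3 ha1
    obtain ⟨z, hz1, hz2⟩ := H3 a c hac
    refine key u v huv hno a z c ha1 hz1 hz2 hc1.symm ha2 hc2 hac ?_ ?_
    · rintro rfl
      exact hc3 hz2
    · rintro rfl
      exact ha3 hz1.symm

end

end Pool.Agent.Q291.PO
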