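import Mathlib
import Pool.Agent.Q291.PO.Need7

/-!
# Components of the far vertices
-/

namespace Pool.Agent.Q291.PO

section far

variable {V : Type*} [Fintype V] {G : SimpleGraph V} {u v : V}

/-- There is no path of three far vertices. -/
lemma Hyp.L1 (h : Hyp G u v) {x0 y0 z0 : V} (hx0 : Far G u v x0) (hy0 : Far G u v y0)
    (hz0 : Far G u v z0) (hxy0 : G.Adj x0 y0) (hyz0 : G.Adj y0 z0) (hxz0 : x0 ≠ z0) : False := by
  classical
  -- the ends of such paths
  let E : V → Prop := fun x => ∃ y z, Far G u v x ∧ Far G u v y ∧ Far G u v z ∧ G.Adj x y ∧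
    G.Adj y z ∧ x ≠ z
  -- the only neighbour in `Q`
  have one : ∀ x y z, Far G u v x → Far G u v y → Far G u v z → G.Adj x y → G.Adj y z → x ≠ z →
      ∃ t, G.Adj u t ∧ G.Adj v t ∧ G.Adj t x ∧ G.Adj t z ∧
        (∀ q, G.Adj q x → (G.Adj u q ∨ G.Adj v q) → q = t) ∧
        (∀ q, G.Adj q z → (G.Adj u q ∨ G.Adj v q) → q = t) := by
    intro x y z hx hy hz hxy hyz hxz
    obtain ⟨w, hw, hwx⟩ := h.eN hx
    obtain ⟨w', hw', hwz⟩ := h.eM hz
    have e1 := h.A hx hy hz hxy hyz hxz hw hwx hw' hwz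
    subst e1
    have hzx : ∀ a b, G.Adj u a → G.Adj a z → G.Adj v b → G.Adj b x → a = b :=
      fun a b h1 h2 h3 h4 => h.A hz hy hx hyz.symm hxy.symm hxz.symm h1 h2 h3 h4
    have hxz' : ∀ a b, G.Adj u a → G.Adj a x → G.Adj v b → G.Adj b z → a = b :=
      fun a b h1 h2 h3 h4 => h.A hx hy hz hxy hyz hxz h1 h2 h3 h4
    obtain ⟨w2, hw2, hw2z⟩ := h.eN hz
    obtain ⟨w3, hw3, hw3x⟩ := h.eM hx
    have e2 : w2 = w3 := hzx w2 w3 hw2 hw2z hw3 hw3x
    subst e2
    -- `w` is a neighbour of `u` adjacent to `x`, also of `v`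
    have e3 : w2 = w := hzx w2 w hw2 hw2z hw' hwx
    subst e3
    refine ⟨w2, hw, hw', hwx, hwz, ?_, ?_⟩
    · rintro q hq (h1 | h1)
      · exact hxz' q w2 h1 hq hw' hwz
      · exact (hzx w2 q hw hwz h1 hq).symm
    · rintro q hq (h1 | h1)
      · exact hzx q w2 h1 hq hw' hwx
      · exact (hxz' w2 q hw hwx h1 hq).symm
  have farOr : ∀ x q, Far G u v x → G.Adj x q → Far G u v q ∨ (G.Adj u q ∨ G.Adj v q) := by
    intro x q hx hxq
    by_cases h1 : G.Adj u q ∨ G.Adj v q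
    · exact Or.inr h1
    · push Not at h1
      refine Or.inl ⟨?_, ?_, h1.1, h1.2⟩
      · rintro rfl; exact hx.2.2.1 hxq.symm
      · rintro rfl; exact hx.2.2.2 hxq.symm
  -- far neighbours of ends are ends
  have nbrE : ∀ x y, E x → Far G u v y → G.Adj x y → E y := by
    rintro x y ⟨y1, z1, hx, hy1, hz1, hxy1, hyz1, hxz1⟩ hy hxy
    obtain ⟨t, hut1, -, htx, -, ht, -⟩ := one x y1 z1 hx hy1 hz1 hxy1 hyz1 hxz1
    have hyt : y ≠ t := by
      rintro rfl
      exact hy.2.2.1 hut1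
    obtain ⟨p, hp, hpy, hpt⟩ := h.deg x y t hyt hxy.ne htx.ne.symm
    have hpF : Far G u v p := by
      rcases farOr x p hx hp with h1 | h1
      · exact h1
      · exact absurd (ht p hp.symm h1) hpt
    exact ⟨x, p, hy, hx, hpF, hxy.symm, hp, hpy.symm⟩
  have hE0 : E x0 := ⟨y0, z0, hx0, hy0, hz0, hxy0, hyz0, hxz0⟩
  have hEy : E y0 := nbrE x0 y0 hE0 hy0 hxy0
  obtain ⟨t, hut, hvt, htx, -, ht1, -⟩ := one x0 y0 z0 hx0 hy0 hz0 hxy0 hyz0 hxz0
  obtain ⟨y1, z1, -, hy1, hz1, hyy1, hyz1, hyz1'⟩ := hEy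
  obtain ⟨t', hut', hvt', hty, -, ht2, -⟩ := one y0 y1 z1 hy0 hy1 hz1 hyy1 hyz1 hyz1'
  -- far vertices with the same far neighbour have the same neighbour in `Q`
  have same : ∀ x y z s, Far G u v x → Far G u v y → Far G u v z → G.Adj x y → G.Adj y z →
      G.Adj s x → (G.Adj u s ∨ G.Adj v s) → G.Adj s z := by
    intro x y z s hx hy hz hxy hyz hsx hs
    by_cases hxz : x = z
    · rw [← hxz]; exact hsx
    · obtain ⟨t1, -, -, -, htz, h1, -⟩ := one x y z hx hy hz hxy hyz hxz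
      rw [h1 s hsx hs]
      exact htz
  have onlyE : ∀ x s, E x → G.Adj s x → (G.Adj u s ∨ G.Adj v s) →
      ∀ q, G.Adj q x → (G.Adj u q ∨ G.Adj v q) → q = s := by
    rintro x s ⟨y1, z1, hx, hy1, hz1, hxy1, hyz1, hxz1⟩ hsx hs q hq hq'
    obtain ⟨t1, -, -, -, -, h1, -⟩ := one x y1 z1 hx hy1 hz1 hxy1 hyz1 hxz1
    rw [h1 s hsx hs, h1 q hq hq']
  let B : V → Prop := fun z => E z ∧ G.Adj t z ∧ ∀ y, Far G u v y → G.Adj z y → G.Adj t' y
  let C : V → Prop := fun z => E z ∧ G.Adj t' z ∧ ∀ y, Far G u v y → G.Adj z y → G.Adj t y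
  have hB0 : B x0 := by
    refine ⟨hE0, htx, fun y hy hxy => ?_⟩
    exact same y0 x0 y t' hy0 hx0 hy hxy0.symm hxy hty (Or.inl hut')
  have farE : ∀ z, E z → Far G u v z := fun z hz => by
    obtain ⟨_, _, hz, _⟩ := hz
    exact hz
  have closed : ∀ z, (B z ∨ C z) → ∀ q, G.Adj z q → (B q ∨ C q) ∨ q = t ∨ q = t' := by
    rintro z (hz | hz) q hzq
    · rcases farOr z q (farE z hz.1) hzq with h1 | h1
      · left; right
        refine ⟨nbrE z q hz.1 h1 hzq, hz.2.2 q h1 hzq, fun y hy hqy => ?_⟩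
        exact same z q y t (farE z hz.1) h1 hy hzq hqy hz.2.1 (Or.inl hut)
      · exact Or.inr (Or.inl (onlyE z t hz.1 hz.2.1 (Or.inl hut) q hzq.symm h1))
    · rcases farOr z q (farE z hz.1) hzq with h1 | h1
      · left; left
        refine ⟨nbrE z q hz.1 h1 hzq, hz.2.2 q h1 hzq, fun y hy hqy => ?_⟩
        exact same z q y t' (farE z hz.1) h1 hy hzq hqy hz.2.1 (Or.inl hut')
      · exact Or.inr (Or.inr (onlyE z t' hz.1 hz.2.1 (Or.inl hut') q hzq.symm h1))
  have far_of : ∀ z, (B z ∨ C z) → Far G u v z := by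
    rintro z (hz | hz)
    · exact farE z hz.1
    · exact farE z hz.1
  by_cases htt : t = t'
  · subst htt
    refine cut h.hn {z | B z ∨ C z} t u hut.ne.symm ?_ ?_ x0 (Or.inl hB0) v ?_ hvt.ne h.huv.symm ?_
    · intro h'; exact (far_of t h').2.2.1 hut
    · intro h'; exact (far_of u h').1 rfl
    · intro h'; exact (far_of v h').2.1 rfl
    · intro z hz q hq
      rcases closed z hz q hq with h1 | h1 | h1
      · exact Or.inl h1
      · exact Or.inr (Or.inl h1)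
      · exact Or.inr (Or.inl h1)
  · refine cut h.hn {z | B z ∨ C z} t t' htt ?_ ?_ x0 (Or.inl hB0) v ?_ hvt.ne hvt'.ne closed
    · intro h'; exact (far_of t h').2.2.1 hut
    · intro h'; exact (far_of t' h').2.2.1 hut'
    · intro h'; exact (far_of v h').2.1 rfl

lemma Hyp.farOr {x q : V} (hx : Far G u v x) (hxq : G.Adj x q) :
    Far G u v q ∨ (G.Adj u q ∨ G.Adj v q) := by
  by_cases h1 : G.Adj u q ∨ G.Adj v q
  · exact Or.inr h1
  · push Not at h1
    refine Or.inl ⟨?_, ?_, h1.1, h1.2⟩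
    · rintro rfl; exact hx.2.2.1 hxq.symm
    · rintro rfl; exact hx.2.2.2 hxq.symm

/-- Two distinct neighbours in `Q`, one of `u` and one of `v`. -/
lemma Hyp.two (h : Hyp G u v) {x y : V} (hx : Far G u v x) (hy : Far G u v y)
    (hxy : G.Adj x y) : ∃ z1 z2, z1 ≠ z2 ∧ G.Adj u z1 ∧ G.Adj v z2 ∧ G.Adj y z1 ∧ G.Adj y z2 := by
  obtain ⟨z1, h1, h1y⟩ := h.eN hy
  obtain ⟨z2, h2, h2y⟩ := h.eM hy
  by_cases hz : z1 = z2
  · subst hz
    have hxz : x ≠ z1 := by rintro rfl; exact hx.2.2.1 h1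
    obtain ⟨p, hp, hpx, hpz⟩ := h.deg y x z1 hxz hxy.ne.symm h1y.ne.symm
    rcases Hyp.farOr hy hp with h3 | h3 | h3
    · exact (h.L1 hx hy h3 hxy hp hpx.symm).elim
    · exact ⟨p, z1, hpz, h3, h2, hp, h1y.symm⟩
    · exact ⟨z1, p, hpz.symm, h1, h3, h1y.symm, hp⟩
  · exact ⟨z1, z2, hz, h1, h2, h1y.symm, h2y.symm⟩

/-- Step s2. -/
lemma Hyp.s2 (h : Hyp G u v) {x y : V} (hx : Far G u v x) (hy : Far G u v y)
    (hxy : G.Adj x y) {z1 z2 w : V} (h12 : z1 ≠ z2) (h1 : G.Adj u z1) (h2 : G.Adj v z2)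
    (h1y : G.Adj y z1) (h2y : G.Adj y z2) (hw : G.Adj u w ∨ G.Adj v w) (hwx : G.Adj x w)
    (hw1 : w ≠ z1) (hw2 : w ≠ z2) : G.Adj w y ∧ G.Adj u w ∧ G.Adj v w := by
  obtain ⟨x1, x2, x3, x4⟩ := hx
  obtain ⟨y1, y2, y3, y4⟩ := hy
  have huv := h.huv
  have noQ : ∀ c, G.Adj c w → (G.Adj u c ∨ G.Adj v c) → c ≠ u → c ≠ v → False := by
    intro c hcw hc hcu hcv
    by_cases hc1 : c = z1
    · subst hc1
      exact h.K c w x y z2 (by (simp only [List.nodup_cons, List.mem_cons, List.not_mem_nil, or_false, not_or, List.nodup_nil, and_true, not_false_eq_true]); (repeat' apply And.intro); (all_goals grind [SimpleGraph.irrefl, SimpleGraph.adj_comm])) hcw hwx.symm hxy h2y (Or.inl ⟨h1, h2⟩)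
    · by_cases hc2 : c = z2
      · subst hc2
        exact h.K c w x y z1 (by (simp only [List.nodup_cons, List.mem_cons, List.not_mem_nil, or_false, not_or, List.nodup_nil, and_true, not_false_eq_true]); (repeat' apply And.intro); (all_goals grind [SimpleGraph.irrefl, SimpleGraph.adj_comm])) hcw hwx.symm hxy h1y (Or.inr ⟨h2, h1⟩)
      · rcases hc with hc | hc
        · exact h.K c w x y z2 (by (simp only [List.nodup_cons, List.mem_cons, List.not_mem_nil, or_false, not_or, List.nodup_nil, and_true, not_false_eq_true]); (repeat' apply And.intro); (all_goals grind [SimpleGraph.irrefl, SimpleGraph.adj_comm])) hcw hwx.symm hxy h2y (Or.inl ⟨hc, h2⟩)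
        · exact h.K c w x y z1 (by (simp only [List.nodup_cons, List.mem_cons, List.not_mem_nil, or_false, not_or, List.nodup_nil, and_true, not_false_eq_true]); (repeat' apply And.intro); (all_goals grind [SimpleGraph.irrefl, SimpleGraph.adj_comm])) hcw hwx.symm hxy h1y (Or.inr ⟨hc, h1⟩)
  have hwy : G.Adj w y := by
    obtain ⟨c, hxc, hcw⟩ := h.h3 x w hwx.ne
    have hcu : c ≠ u := by rintro rfl; exact x3 hxc.symm
    have hcv : c ≠ v := by rintro rfl; exact x4 hxc.symm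
    rcases Hyp.farOr ⟨x1, x2, x3, x4⟩ hxc with h3 | h3
    · by_cases hcy : c = y
      · rw [← hcy]; exact hcw.symm
      · exact (h.L1 h3 ⟨x1, x2, x3, x4⟩ ⟨y1, y2, y3, y4⟩ hxc.symm hxy hcy).elim
    · exact (noQ c hcw h3 hcu hcv).elim
  refine ⟨hwy, ?_⟩
  rcases hw with hw | hw
  · obtain ⟨c, huc, hcw⟩ := h.h3 u w hw.ne
    by_cases hcv : c = v
    · subst hcv; exact ⟨hw, hcw⟩
    · exact (noQ c hcw (Or.inl huc) huc.ne.symm hcv).elim
  · obtain ⟨c, hvc, hcw⟩ := h.h3 v w hw.ne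
    by_cases hcu : c = u
    · subst hcu; exact ⟨hcw, hw⟩
    · exact (noQ c hcw (Or.inr hvc) hcu hvc.ne.symm).elim

/-- Far vertices are not adjacent. -/
lemma Hyp.L2 (h : Hyp G u v) {x y : V} (hx : Far G u v x) (hy : Far G u v y)
    (hxy : G.Adj x y) : False := by
  obtain ⟨z1, z2, h12, h1, h2, h1y, h2y⟩ := h.two hx hy hxy
  obtain ⟨w1, w2, k12, k1, k2, k1x, k2x⟩ := h.two hy hx hxy.symm
  have toy : ∀ w, (G.Adj u w ∨ G.Adj v w) → G.Adj x w → G.Adj w y := by
    intro w hw hxw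
    by_cases hw1 : w = z1
    · rw [hw1]; exact h1y.symm
    by_cases hw2 : w = z2
    · rw [hw2]; exact h2y.symm
    exact (h.s2 hx hy hxy h12 h1 h2 h1y h2y hw hxw hw1 hw2).1
  have tox : ∀ w, (G.Adj u w ∨ G.Adj v w) → G.Adj y w → G.Adj w x := by
    intro w hw hyw
    by_cases hw1 : w = w1
    · rw [hw1]; exact k1x.symm
    by_cases hw2 : w = w2
    · rw [hw2]; exact k2x.symm
    exact (h.s2 hy hx hxy.symm k12 k1 k2 k1x k2x hw hyw hw1 hw2).1
  -- a third common neighbour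
  obtain ⟨p, hpQ, hpx, hpy, hp1, hp2⟩ : ∃ p, (G.Adj u p ∨ G.Adj v p) ∧ G.Adj x p ∧ G.Adj y p ∧
      p ≠ z1 ∧ p ≠ z2 := by
    by_contra hno
    push Not at hno
    have huv := h.huv
    refine cut h.hn {x, y} z1 z2 h12 ?_ ?_ x (by simp) u ?_ h1.ne ?_ ?_
    · rintro (h' | h')
      · exact hx.2.2.1 (h' ▸ h1)
      · exact hy.2.2.1 (h' ▸ h1)
    · rintro (h' | h')
      · exact hx.2.2.2 (h' ▸ h2)
      · exact hy.2.2.2 (h' ▸ h2)
    · rintro (h' | h')
      · exact hx.1 h'.symm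
      · exact hy.1 h'.symm
    · rintro rfl
      exact hy.2.2.1 h2y.symm
    · rintro x' (rfl | rfl) q hq
      · rcases Hyp.farOr hx hq with h3 | h3
        · by_cases hqy : q = y
          · left; right; exact hqy
          · exact (h.L1 h3 hx hy hq.symm hxy hqy).elim
        · by_cases hq1 : q = z1
          · exact Or.inr (Or.inl hq1)
          · exact Or.inr (Or.inr (hno q h3 hq (toy q h3 hq).symm hq1))
      · rcases Hyp.farOr hy hq with h3 | h3
        · by_cases hqx : q = x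
          · left; left; exact hqx
          · exact (h.L1 h3 hy hx hq.symm hxy.symm hqx).elim
        · by_cases hq1 : q = z1
          · exact Or.inr (Or.inl hq1)
          · exact Or.inr (Or.inr (hno q h3 (tox q h3 hq).symm hq hq1))
  have hp := h.s2 hx hy hxy h12 h1 h2 h1y h2y hpQ hpx hp1 hp2
  have e1 : G.Adj z1 x := tox z1 (Or.inl h1) h1y
  have e2 : G.Adj z2 x := tox z2 (Or.inr h2) h2y
  obtain ⟨x1, x2, x3, x4⟩ := hx
  obtain ⟨y1, y2, y3, y4⟩ := hy
  have huv := h.huv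
  exact h.K z1 x z2 y p (by (simp only [List.nodup_cons, List.mem_cons, List.not_mem_nil, or_false, not_or, List.nodup_nil, and_true, not_false_eq_true]); (repeat' apply And.intro); (all_goals grind [SimpleGraph.irrefl, SimpleGraph.adj_comm])) e1 e2.symm h2y.symm hpy (Or.inl ⟨h1, hp.2.2⟩)

end far

end Pool.Agent.Q291.PO
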