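import Mathlib
import Pool.Agent.Q291.PO.Need7a

/-!
# There are no far vertices
-/

namespace Pool.Agent.Q291.PO

section far

variable {V : Type*} [Fintype V] {G : SimpleGraph V} {u v : V}

lemma Hyp.nb (h : Hyp G u v) {x q : V} (hx : Far G u v x) (hxq : G.Adj x q) :
    (G.Adj u q ∨ G.Adj v q) ∧ q ≠ u ∧ q ≠ v := by
  refine ⟨?_, ?_, ?_⟩
  · rcases Hyp.farOr hx hxq with h1 | h1
    · exact (h.L2 hx h1 hxq).elim
    · exact h1
  · rintro rfl; exact hx.2.2.1 hxq.symm
  · rintro rfl; exact hx.2.2.2 hxq.symm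

omit [Fintype V] in
lemma farOr' (y : V) (h1 : y ≠ u) (h2 : y ≠ v) :
    Far G u v y ∨ (G.Adj u y ∨ G.Adj v y) := by
  by_cases h3 : G.Adj u y ∨ G.Adj v y
  · exact Or.inr h3
  · push Not at h3
    exact Or.inl ⟨h1, h2, h3.1, h3.2⟩

/-- Final step of the star case. -/
lemma Hyp.S2 (h : Hyp G u v) {x c l l' : V} (hx : Far G u v x) (hxc : G.Adj x c)
    (hxl : G.Adj x l) (hxl' : G.Adj x l') (hcl : G.Adj c l) (hcl' : G.Adj c l') (hne : l ≠ l')
    (hll : ¬ G.Adj l l') (hstar : ∀ t, G.Adj x t → t ≠ c → G.Adj c t)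
    (hl : G.Adj u l ∧ G.Adj v l) (hc : G.Adj u c ∧ ¬ G.Adj v c)
    (hl' : G.Adj u l' ∧ ¬ G.Adj v l') : False := by
  have huv := h.huv
  have nc := h.nb hx hxc
  have nl := h.nb hx hxl
  have nl' := h.nb hx hxl'
  obtain ⟨-, nc1, nc2⟩ := nc
  obtain ⟨-, nl1, nl2⟩ := nl
  obtain ⟨-, nl'1, nl'2⟩ := nl'
  obtain ⟨hl1, hl2⟩ := hl
  have hx' := hx
  obtain ⟨x1, x2, x3, x4⟩ := hx'
  have NMl : ∀ q, (G.Adj u q ∨ G.Adj v q) → NM G u v l q := by
    rintro q (hq | hq)
    · exact Or.inr ⟨hl2, hq⟩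
    · exact Or.inl ⟨hl1, hq⟩
  -- neighbours of `l'`
  have e1 : ∀ y, G.Adj l' y → y ≠ u → y ≠ v → y = x ∨ y = c := by
    intro y hy hyu hyv
    by_contra hno
    push Not at hno
    obtain ⟨hyx, hyc⟩ := hno
    have hyl : y ≠ l := by rintro rfl; exact hll hy.symm
    rcases farOr' (G := G) y hyu hyv with h3 | h3
    · obtain ⟨q, hq, hq1, hq2⟩ := h.deg y l l' hne hyl hy.ne.symm
      have nq := h.nb h3 hq
      obtain ⟨nq0, nq1, nq2⟩ := nq
      obtain ⟨y1, y2, y3, y4⟩ := h3
      have hqx : q ≠ x := by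
        rintro rfl
        exact h.L2 hx ⟨y1, y2, y3, y4⟩ hq.symm
      exact h.K l x l' y q (by (simp only [List.nodup_cons, List.mem_cons, List.not_mem_nil, or_false, not_or, List.nodup_nil, and_true, not_false_eq_true]); (repeat' apply And.intro); (all_goals grind [SimpleGraph.irrefl, SimpleGraph.adj_comm])) hxl.symm hxl' hy hq (NMl q nq0)
    · exact h.K l x c l' y (by (simp only [List.nodup_cons, List.mem_cons, List.not_mem_nil, or_false, not_or, List.nodup_nil, and_true, not_false_eq_true]); (repeat' apply And.intro); (all_goals grind [SimpleGraph.irrefl, SimpleGraph.adj_comm])) hxl.symm hxc hcl' hy (NMl y h3)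
  -- no further neighbour of `x`
  have e2 : ∀ t, G.Adj x t → t = c ∨ t = l ∨ t = l' := by
    intro t ht
    by_contra hno
    push Not at hno
    obtain ⟨h1, h2, h3⟩ := hno
    have hct := hstar t ht h1
    have nt := h.nb hx ht
    obtain ⟨nt0, nt1, nt2⟩ := nt
    exact h.K l x l' c t (by (simp only [List.nodup_cons, List.mem_cons, List.not_mem_nil, or_false, not_or, List.nodup_nil, and_true, not_false_eq_true]); (repeat' apply And.intro); (all_goals grind [SimpleGraph.irrefl, SimpleGraph.adj_comm])) hxl.symm hxl' hcl'.symm hct (NMl t nt0)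
  -- neighbours of `c`
  have e3 : ∀ y, G.Adj c y → y ≠ u → y ≠ v → y = x ∨ y = l ∨ y = l' := by
    intro y hy hyu hyv
    by_contra hno
    push Not at hno
    obtain ⟨h1, h2, h3'⟩ := hno
    rcases farOr' (G := G) y hyu hyv with h3 | h3
    · obtain ⟨q, hq, hq1, hq2⟩ := h.deg y l c hcl.ne.symm h2 hy.ne.symm
      have nq := h.nb h3 hq
      obtain ⟨nq0, nq1, nq2⟩ := nq
      obtain ⟨y1, y2, y3, y4⟩ := h3
      have hqx : q ≠ x := by
        rintro rfl
        exact h.L2 hx ⟨y1, y2, y3, y4⟩ hq.symm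
      exact h.K l x c y q (by (simp only [List.nodup_cons, List.mem_cons, List.not_mem_nil, or_false, not_or, List.nodup_nil, and_true, not_false_eq_true]); (repeat' apply And.intro); (all_goals grind [SimpleGraph.irrefl, SimpleGraph.adj_comm])) hxl.symm hxc hy hq (NMl q nq0)
    · exact h.K l x l' c y (by (simp only [List.nodup_cons, List.mem_cons, List.not_mem_nil, or_false, not_or, List.nodup_nil, and_true, not_false_eq_true]); (repeat' apply And.intro); (all_goals grind [SimpleGraph.irrefl, SimpleGraph.adj_comm])) hxl.symm hxl' hcl'.symm hy (NMl y h3)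
  refine cut h.hn {x, c, l'} l u nl1 ?_ ?_ x (by simp) v ?_ nl2.symm huv.symm ?_
  · rintro (h' | h' | h')
    · exact hxl.ne h'.symm
    · exact hcl.ne h'.symm
    · exact hne h'
  · rintro (h' | h' | h')
    · exact x1 h'.symm
    · exact nc1 h'.symm
    · exact nl'1 h'.symm
  · rintro (h' | h' | h')
    · exact x2 h'.symm
    · exact nc2 h'.symm
    · exact nl'2 h'.symm
  · rintro z (rfl | rfl | rfl) q hq
    · rcases e2 q hq with h4 | h4 | h4
      · left; right; left; exact h4
      · exact Or.inr (Or.inl h4)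
      · left; right; right; exact h4
    · by_cases hqu : q = u
      · exact Or.inr (Or.inr hqu)
      have hqv : q ≠ v := by rintro rfl; exact hc.2 hq.symm
      rcases e3 q hq hqu hqv with h4 | h4 | h4
      · left; left; exact h4
      · exact Or.inr (Or.inl h4)
      · left; right; right; exact h4
    · by_cases hqu : q = u
      · exact Or.inr (Or.inr hqu)
      have hqv : q ≠ v := by rintro rfl; exact hl'.2 hq.symm
      rcases e1 q hq hqu hqv with h4 | h4
      · left; left; exact h4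
      · left; right; left; exact h4

/-- The star case, all other leaves on the side of `u`. -/
lemma Hyp.S1core (h : Hyp G u v) {x c l l' : V} (hx : Far G u v x) (hxc : G.Adj x c)
    (hxl : G.Adj x l) (hxl' : G.Adj x l') (hlc : l ≠ c) (hl'c : l' ≠ c) (hne : l ≠ l')
    (hstar : ∀ t, G.Adj x t → t ≠ c → G.Adj c t)
    (hind : ∀ t t', G.Adj x t → G.Adj x t' → t ≠ c → t' ≠ c → ¬ G.Adj t t')
    (hc : G.Adj u c ∧ ¬ G.Adj v c)
    (hleaf : ∀ t, G.Adj x t → t ≠ c → t ≠ l → G.Adj u t ∧ ¬ G.Adj v t) : False := by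
  have huv := h.huv
  obtain ⟨-, nc1, nc2⟩ := h.nb hx hxc
  obtain ⟨-, nl1, nl2⟩ := h.nb hx hxl
  obtain ⟨-, nl'1, nl'2⟩ := h.nb hx hxl'
  have hcl := hstar l hxl hlc
  have hcl' := hstar l' hxl' hl'c
  have hll := hind l l' hxl hxl' hlc hl'c
  have hl' := hleaf l' hxl' hl'c hne.symm
  -- `l` is a neighbour of `v`
  have hvl : G.Adj v l := by
    obtain ⟨z, hz, hzx⟩ := h.eM hx
    by_cases hzc : z = c
    · exact absurd (hzc ▸ hz) hc.2
    by_cases hzl : z = l
    · rw [← hzl]; exact hz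
    · exact absurd hz (hleaf z hzx.symm hzc hzl).2
  obtain ⟨z, hvz, hzl⟩ := h.h3 v l hvl.ne
  by_cases hzu : z = u
  · subst hzu
    exact h.S2 hx hxc hxl hxl' hcl hcl' hne hll hstar ⟨hzl, hvl⟩ hc hl'
  · obtain ⟨x1, x2, x3, x4⟩ := hx
    obtain ⟨hc1, hc2⟩ := hc
    exact h.K z l x l' c (by (simp only [List.nodup_cons, List.mem_cons, List.not_mem_nil, or_false, not_or, List.nodup_nil, and_true, not_false_eq_true]); (repeat' apply And.intro); (all_goals grind [SimpleGraph.irrefl, SimpleGraph.adj_comm])) hzl hxl.symm hxl' hcl'.symm (Or.inr ⟨hvz, hc1⟩)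

/-- In the star case the leaves have no further neighbours. -/
lemma Hyp.S1 (h : Hyp G u v) {x c l l' : V} (hx : Far G u v x) (hxc : G.Adj x c)
    (hxl : G.Adj x l) (hxl' : G.Adj x l') (hlc : l ≠ c) (hl'c : l' ≠ c) (hne : l ≠ l')
    (hstar : ∀ t, G.Adj x t → t ≠ c → G.Adj c t)
    (hind : ∀ t t', G.Adj x t → G.Adj x t' → t ≠ c → t' ≠ c → ¬ G.Adj t t')
    {y : V} (hly : G.Adj l y) (hyu : y ≠ u) (hyv : y ≠ v) : y = x ∨ y = c := by
  by_contra hno
  push Not at hno
  obtain ⟨hyx, hyc⟩ := hno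
  have huv := h.huv
  obtain ⟨ncQ, nc1, nc2⟩ := h.nb hx hxc
  obtain ⟨nlQ, nl1, nl2⟩ := h.nb hx hxl
  obtain ⟨nl'Q, nl'1, nl'2⟩ := h.nb hx hxl'
  have hcl := hstar l hxl hlc
  have hcl' := hstar l' hxl' hl'c
  have hll := hind l l' hxl hxl' hlc hl'c
  -- `c` and every other leaf are of the same strict type
  have key : ∀ t, G.Adj x t → t ≠ c → t ≠ l → ((G.Adj u c ∧ ¬ G.Adj v c) ∧
      (G.Adj u t ∧ ¬ G.Adj v t)) ∨ ((G.Adj v c ∧ ¬ G.Adj u c) ∧ (G.Adj v t ∧ ¬ G.Adj u t)) := by
    intro t hxt htc htl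
    obtain ⟨ntQ, nt1, nt2⟩ := h.nb hx hxt
    have hct := hstar t hxt htc
    have hlt := hind l t hxl hxt hlc htc
    have hyt : y ≠ t := by rintro rfl; exact hlt hly
    have hyn : y ≠ l := hly.ne.symm
    rcases farOr' (G := G) y hyu hyv with h3 | h3
    · obtain ⟨q, hq, hq1, hq2⟩ := h.deg y l t htl.symm hyn hyt
      obtain ⟨nqQ, nq1, nq2⟩ := h.nb h3 hq
      have hqx : q ≠ x := by
        rintro rfl
        exact h.L2 hx h3 hq.symm
      obtain ⟨x1, x2, x3, x4⟩ := hx
      obtain ⟨y1, y2, y3, y4⟩ := h3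
      have k1 := h.K t x l y q (by (simp only [List.nodup_cons, List.mem_cons, List.not_mem_nil, or_false, not_or, List.nodup_nil, and_true, not_false_eq_true]); (repeat' apply And.intro); (all_goals grind [SimpleGraph.irrefl, SimpleGraph.adj_comm])) hxt.symm hxl hly hq
      by_cases hqc : q = c
      · subst hqc
        unfold NM at k1
        grind
      · have k2 := h.K c x l y q (by (simp only [List.nodup_cons, List.mem_cons, List.not_mem_nil, or_false, not_or, List.nodup_nil, and_true, not_false_eq_true]); (repeat' apply And.intro); (all_goals grind [SimpleGraph.irrefl, SimpleGraph.adj_comm])) hxc.symm hxl hly hq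
        unfold NM at k1 k2
        grind
    · obtain ⟨x1, x2, x3, x4⟩ := hx
      have k1 := h.K y l c x t (by (simp only [List.nodup_cons, List.mem_cons, List.not_mem_nil, or_false, not_or, List.nodup_nil, and_true, not_false_eq_true]); (repeat' apply And.intro); (all_goals grind [SimpleGraph.irrefl, SimpleGraph.adj_comm])) hly.symm hcl.symm hxc.symm hxt
      have k2 := h.K y l x t c (by (simp only [List.nodup_cons, List.mem_cons, List.not_mem_nil, or_false, not_or, List.nodup_nil, and_true, not_false_eq_true]); (repeat' apply And.intro); (all_goals grind [SimpleGraph.irrefl, SimpleGraph.adj_comm])) hly.symm hxl.symm hxt hct.symm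
      unfold NM at k1 k2
      grind
  rcases key l' hxl' hl'c hne.symm with h1 | h1
  · refine h.S1core hx hxc hxl hxl' hlc hl'c hne hstar hind h1.1 fun t h2 h3 h4 => ?_
    rcases key t h2 h3 h4 with h5 | h5
    · exact h5.2
    · exact absurd h1.1.1 h5.1.2
  · refine h.symm.S1core hx.symm hxc hxl hxl' hlc hl'c hne hstar hind h1.1 fun t h2 h3 h4 => ?_
    rcases key t h2 h3 h4 with h5 | h5
    · exact absurd h1.1.1 h5.1.2
    · exact h5.2

end far

end Pool.Agent.Q291.PO
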