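import Mathlib
import Pool.Agent.Q291.PO.Need7b

/-!
# There are no far vertices: end of the star case, the triangle case
-/

namespace Pool.Agent.Q291.PO

section far

variable {V : Type*} [Fintype V] {G : SimpleGraph V} {u v : V}

lemma Hyp.outside (h : Hyp G u v) (s : Finset V) (hs : s.card ≤ 6) : ∃ y, y ∉ s := by
  classical
  by_contra hno
  push Not at hno
  have h1 : Fintype.card V ≤ s.card := by
    rw [← Finset.card_univ]
    exact Finset.card_le_card fun y _ => hno y
  have := h.hcard
  omega

/-- All leaves on the side of `u`: impossible. -/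
lemma Hyp.allN (h : Hyp G u v) {x c : V} (hx : Far G u v x) (hxc : G.Adj x c)
    (hleaf : ∀ t, G.Adj x t → t ≠ c → ∀ y, G.Adj t y → y ≠ u → y ≠ v → y = x ∨ y = c)
    (hN : ∀ t, G.Adj x t → t ≠ c → ¬ G.Adj v t) : False := by
  obtain ⟨-, nc1, nc2⟩ := h.nb hx hxc
  refine cut h.hn {z | z = x ∨ (G.Adj x z ∧ z ≠ c)} c u nc1 ?_ ?_ x (Or.inl rfl) v ?_ nc2.symm
    h.huv.symm ?_
  · rintro (h' | h')
    · exact hxc.ne h'.symm
    · exact h'.2 rfl
  · rintro (h' | h')
    · exact hx.1 h'.symm
    · exact hx.2.2.1 h'.1.symm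
  · rintro (h' | h')
    · exact hx.2.1 h'.symm
    · exact hx.2.2.2 h'.1.symm
  · rintro z (rfl | hz) q hq
    · by_cases hqc : q = c
      · exact Or.inr (Or.inl hqc)
      · exact Or.inl (Or.inr ⟨hq, hqc⟩)
    · by_cases hqu : q = u
      · exact Or.inr (Or.inr hqu)
      · have hqv : q ≠ v := by rintro rfl; exact hN z hz.1 hz.2 hq.symm
        rcases hleaf z hz.1 hz.2 q hq hqu hqv with h1 | h1
        · exact Or.inl (Or.inl h1)
        · exact Or.inr (Or.inl h1)

/-- The star case. -/
lemma Hyp.star (h : Hyp G u v) {x c l l' : V} (hx : Far G u v x) (hxc : G.Adj x c)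
    (hxl : G.Adj x l) (hxl' : G.Adj x l') (hlc : l ≠ c) (hl'c : l' ≠ c) (hne : l ≠ l')
    (hstar : ∀ t, G.Adj x t → t ≠ c → G.Adj c t)
    (hind : ∀ t t', G.Adj x t → G.Adj x t' → t ≠ c → t' ≠ c → ¬ G.Adj t t') : False := by
  classical
  have huv := h.huv
  obtain ⟨ncQ, nc1, nc2⟩ := h.nb hx hxc
  obtain ⟨nlQ, nl1, nl2⟩ := h.nb hx hxl
  obtain ⟨nl'Q, nl'1, nl'2⟩ := h.nb hx hxl'
  have hcl := hstar l hxl hlc
  have hcl' := hstar l' hxl' hl'c
  have hll := hind l l' hxl hxl' hlc hl'c
  have hleaf : ∀ t, G.Adj x t → t ≠ c → ∀ y, G.Adj t y → y ≠ u → y ≠ v → y = x ∨ y = c := by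
    intro t ht htc y hy hyu hyv
    by_cases htl : t = l
    · subst htl
      exact h.S1 hx hxc ht hxl' htc hl'c hne hstar hind hy hyu hyv
    · exact h.S1 hx hxc ht hxl htc hlc htl hstar hind hy hyu hyv
  -- not all leaves of the same type
  have fin : (∀ t, G.Adj x t → t ≠ c → ¬ NM G u v l t) → (∀ t, G.Adj x t → t ≠ c → t ≠ l' →
      ¬ NM G u v l' t) → ¬ NM G u v l l' → False := by
    intro k1 k2 k3
    rcases nlQ with h1 | h1
    · refine h.allN hx hxc hleaf fun t ht htc hvt => ?_
      by_cases htl : t = l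
      · subst htl
        exact k1 l' hxl' hl'c (by
          rcases nl'Q with h2 | h2
          · exact Or.inr ⟨hvt, h2⟩
          · exact Or.inl ⟨h1, h2⟩)
      · exact k1 t ht htc (Or.inl ⟨h1, hvt⟩)
    · refine h.symm.allN hx.symm hxc (fun t ht htc y hy h2 h3 => hleaf t ht htc y hy h3 h2)
        fun t ht htc hvt => ?_
      by_cases htl : t = l
      · subst htl
        exact k1 l' hxl' hl'c (by
          rcases nl'Q with h2 | h2
          · exact Or.inr ⟨h1, h2⟩
          · exact Or.inl ⟨hvt, h2⟩)
      · exact k1 t ht htc (Or.inr ⟨h1, hvt⟩)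
  -- two leaves are of the same type if there is a third one
  have third : ∀ p q s, G.Adj x p → G.Adj x q → G.Adj x s → p ≠ c → q ≠ c → s ≠ c → p ≠ q →
      p ≠ s → q ≠ s → ¬ NM G u v p q := by
    intro p q s hp hq hs hpc hqc hsc hpq hps hqs
    have hcq := hstar q hq hqc
    have hcs := hstar s hs hsc
    obtain ⟨-, np1, np2⟩ := h.nb hx hp
    obtain ⟨-, nq1, nq2⟩ := h.nb hx hq
    obtain ⟨-, ns1, ns2⟩ := h.nb hx hs
    obtain ⟨x1, x2, x3, x4⟩ := hx
    exact h.K p x s c q (by (simp only [List.nodup_cons, List.mem_cons, List.not_mem_nil, or_false, not_or, List.nodup_nil, and_true, not_false_eq_true]); (repeat' apply And.intro); (all_goals grind [SimpleGraph.irrefl, SimpleGraph.adj_comm])) hp.symm hs hcs.symm hcq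
  by_cases h3 : ∃ s, G.Adj x s ∧ s ≠ c ∧ s ≠ l ∧ s ≠ l'
  · obtain ⟨s, hs, hsc, hsl, hsl'⟩ := h3
    obtain ⟨nsQ, ns1, ns2⟩ := h.nb hx hs
    have k1 := third l l' s hxl hxl' hs hlc hl'c hsc hne hsl.symm hsl'.symm
    have k2 := third l s l' hxl hs hxl' hlc hsc hl'c hsl.symm hne hsl'
    have k3 := third l' s l hxl' hs hxl hl'c hsc hlc hsl'.symm hne.symm hsl
    have self : ¬ NM G u v l l := by
      unfold NM at k1 k2 ⊢
      grind
    refine fin (fun t ht htc => ?_) (fun t ht htc htl' => ?_) k1
    · by_cases htl : t = l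
      · rw [htl]; exact self
      by_cases htl' : t = l'
      · rw [htl']; exact k1
      · exact third l t l' hxl ht hxl' hlc htc hl'c (Ne.symm htl) hne htl'
    · by_cases htl : t = l
      · rw [htl]
        unfold NM at k1 ⊢
        grind
      · exact third l' t l hxl' ht hxl hl'c htc hlc (Ne.symm htl') hne.symm htl
  · push Not at h3
    have T : ∀ t, G.Adj x t → t = c ∨ t = l ∨ t = l' := by
      intro t ht
      by_cases htc : t = c
      · exact Or.inl htc
      by_cases htl : t = l
      · exact Or.inr (Or.inl htl)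
      · exact Or.inr (Or.inr (h3 t ht htc htl))
    -- same type gives a contradiction
    have same : ¬ NM G u v l l' → ¬ NM G u v l l → False := by
      intro k1 k2
      refine fin (fun t ht htc => ?_) (fun t ht htc htl' => ?_) k1
      · rcases T t ht with h4 | h4 | h4
        · exact absurd h4 htc
        · rw [h4]; exact k2
        · rw [h4]; exact k1
      · rcases T t ht with h4 | h4 | h4
        · exact absurd h4 htc
        · rw [h4]
          unfold NM at k1 ⊢
          grind
        · exact absurd h4 htl'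
    have e3 : ∀ y, G.Adj c y → y ≠ u → y ≠ v → y = x ∨ y = l ∨ y = l' := by
      intro y hy hyu hyv
      by_contra hno
      push Not at hno
      obtain ⟨hyx, hyl, hyl'⟩ := hno
      rcases farOr' (G := G) y hyu hyv with h4 | h4
      · obtain ⟨q, hq, hqc, hqx⟩ := h.deg y c x hxc.ne.symm hy.ne.symm hyx
        obtain ⟨nqQ, nq1, nq2⟩ := h.nb h4 hq
        have hql : q ≠ l := by
          rintro rfl
          rcases hleaf q hxl hlc y hq.symm hyu hyv with h5 | h5
          · exact hyx h5
          · exact hy.ne h5.symm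
        have hql' : q ≠ l' := by
          rintro rfl
          rcases hleaf q hxl' hl'c y hq.symm hyu hyv with h5 | h5
          · exact hyx h5
          · exact hy.ne h5.symm
        obtain ⟨x1, x2, x3, x4⟩ := hx
        obtain ⟨y1, y2, y3, y4⟩ := h4
        have k1 := h.K l x c y q (by (simp only [List.nodup_cons, List.mem_cons, List.not_mem_nil, or_false, not_or, List.nodup_nil, and_true, not_false_eq_true]); (repeat' apply And.intro); (all_goals grind [SimpleGraph.irrefl, SimpleGraph.adj_comm])) hxl.symm hxc hy hq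
        have k2 := h.K l' x c y q (by (simp only [List.nodup_cons, List.mem_cons, List.not_mem_nil, or_false, not_or, List.nodup_nil, and_true, not_false_eq_true]); (repeat' apply And.intro); (all_goals grind [SimpleGraph.irrefl, SimpleGraph.adj_comm])) hxl'.symm hxc hy hq
        refine same ?_ ?_
        · unfold NM at k1 k2 ⊢
          grind
        · unfold NM at k1 k2 ⊢
          grind
      · obtain ⟨x1, x2, x3, x4⟩ := hx
        have k1 := h.K l x l' c y (by (simp only [List.nodup_cons, List.mem_cons, List.not_mem_nil, or_false, not_or, List.nodup_nil, and_true, not_false_eq_true]); (repeat' apply And.intro); (all_goals grind [SimpleGraph.irrefl, SimpleGraph.adj_comm])) hxl.symm hxl' hcl'.symm hy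
        have k2 := h.K l' x l c y (by (simp only [List.nodup_cons, List.mem_cons, List.not_mem_nil, or_false, not_or, List.nodup_nil, and_true, not_false_eq_true]); (repeat' apply And.intro); (all_goals grind [SimpleGraph.irrefl, SimpleGraph.adj_comm])) hxl'.symm hxl hcl.symm hy
        refine same ?_ ?_
        · unfold NM at k1 k2 ⊢
          grind
        · unfold NM at k1 k2 ⊢
          grind
    obtain ⟨y, hy⟩ := h.outside {x, c, l, l', u, v} (by
      refine (Finset.card_insert_le _ _).trans ?_
      have := @Finset.card_le_five V _ c l l' u v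
      omega)
    simp only [Finset.mem_insert, Finset.mem_singleton, not_or] at hy
    obtain ⟨y1, y2, y3, y4, y5, y6⟩ := hy
    refine cut h.hn {x, c, l, l'} u v huv ?_ ?_ x (by simp) y ?_ y5 y6 ?_
    · rintro (h' | h' | h' | h')
      · exact hx.1 h'.symm
      · exact nc1 h'.symm
      · exact nl1 h'.symm
      · exact nl'1 h'.symm
    · rintro (h' | h' | h' | h')
      · exact hx.2.1 h'.symm
      · exact nc2 h'.symm
      · exact nl2 h'.symm
      · exact nl'2 h'.symm
    · rintro (h' | h' | h' | h')
      · exact y1 h'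
      · exact y2 h'
      · exact y3 h'
      · exact y4 h'
    · intro z hz q hq
      by_cases hqu : q = u
      · exact Or.inr (Or.inl hqu)
      by_cases hqv : q = v
      · exact Or.inr (Or.inr hqv)
      left
      simp only [Set.mem_insert_iff, Set.mem_singleton_iff] at hz ⊢
      rcases hz with rfl | rfl | rfl | rfl
      · rcases T q hq with h5 | h5 | h5 <;> simp [h5]
      · rcases e3 q hq hqu hqv with h5 | h5 | h5 <;> simp [h5]
      · rcases hleaf z hxl hlc q hq hqu hqv with h5 | h5 <;> simp [h5]
      · rcases hleaf z hxl' hl'c q hq hqu hqv with h5 | h5 <;> simp [h5]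

end far

end Pool.Agent.Q291.PO
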