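import Mathlib
import Pool.Agent.Q291.PO.Need7c

/-!
# There are no far vertices: the triangle case and the conclusion
-/

namespace Pool.Agent.Q291.PO

section far

variable {V : Type*} [Fintype V] {G : SimpleGraph V} {u v : V}

/-- Final step of the triangle case. -/
lemma Hyp.T2 (h : Hyp G u v) {x a b c : V} (hx : Far G u v x)
    (T : ∀ t, G.Adj x t → t = a ∨ t = b ∨ t = c) (hxa : G.Adj x a) (hxb : G.Adj x b)
    (hxc : G.Adj x c) (hab : G.Adj a b) (hbc : G.Adj b c) (hac : G.Adj a c)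
    (ha : G.Adj u a ∧ G.Adj v a) (hb : G.Adj u b ∧ ¬ G.Adj v b)
    (hc : G.Adj u c ∧ ¬ G.Adj v c) : False := by
  have huv := h.huv
  obtain ⟨naQ, na1, na2⟩ := h.nb hx hxa
  obtain ⟨nbQ, nb1, nb2⟩ := h.nb hx hxb
  obtain ⟨ncQ, nc1, nc2⟩ := h.nb hx hxc
  have NMa : ∀ q, (G.Adj u q ∨ G.Adj v q) → NM G u v a q := by
    rintro q (hq | hq)
    · exact Or.inr ⟨ha.2, hq⟩
    · exact Or.inl ⟨ha.1, hq⟩
  -- neighbours of one of `b`, `c`
  have e : ∀ b c, G.Adj x b → G.Adj x c → G.Adj a b → G.Adj b c → G.Adj a c →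
      ∀ y, G.Adj c y → y ≠ u → y ≠ v → y = x ∨ y = a ∨ y = b := by
    intro b c hxb hxc hab hbc hac y hy hyu hyv
    obtain ⟨nbQ, nb1, nb2⟩ := h.nb hx hxb
    obtain ⟨ncQ, nc1, nc2⟩ := h.nb hx hxc
    by_contra hno
    push Not at hno
    obtain ⟨hyx, hya, hyb⟩ := hno
    rcases farOr' (G := G) y hyu hyv with h4 | h4
    · obtain ⟨p, hp, hpa, hpc⟩ := h.deg y a c hac.ne hya hy.ne.symm
      obtain ⟨npQ, np1, np2⟩ := h.nb h4 hp
      have hpx : p ≠ x := by
        rintro rfl
        exact h.L2 hx h4 hp.symm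
      have ncQ' := ncQ
      obtain ⟨x1, x2, x3, x4⟩ := hx
      obtain ⟨y1, y2, y3, y4⟩ := h4
      by_cases hpb : p = b
      · subst hpb
        exact h.K a x p y c (by (simp only [List.nodup_cons, List.mem_cons, List.not_mem_nil, or_false, not_or, List.nodup_nil, and_true, not_false_eq_true]); (repeat' apply And.intro); (all_goals grind [SimpleGraph.irrefl, SimpleGraph.adj_comm])) hxa.symm hxb hp.symm hy.symm (NMa c ncQ')
      · exact h.K a b c y p (by (simp only [List.nodup_cons, List.mem_cons, List.not_mem_nil, or_false, not_or, List.nodup_nil, and_true, not_false_eq_true]); (repeat' apply And.intro); (all_goals grind [SimpleGraph.irrefl, SimpleGraph.adj_comm])) hab hbc hy hp (NMa p npQ)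
    · obtain ⟨x1, x2, x3, x4⟩ := hx
      exact h.K a x b c y (by (simp only [List.nodup_cons, List.mem_cons, List.not_mem_nil, or_false, not_or, List.nodup_nil, and_true, not_false_eq_true]); (repeat' apply And.intro); (all_goals grind [SimpleGraph.irrefl, SimpleGraph.adj_comm])) hxa.symm hxb hbc hy (NMa y h4)
  refine cut h.hn {x, b, c} a u na1 ?_ ?_ x (by simp) v ?_ na2.symm huv.symm ?_
  · rintro (h' | h' | h')
    · exact hxa.ne h'.symm
    · exact hab.ne h'
    · exact hac.ne h'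
  · rintro (h' | h' | h')
    · exact hx.1 h'.symm
    · exact nb1 h'.symm
    · exact nc1 h'.symm
  · rintro (h' | h' | h')
    · exact hx.2.1 h'.symm
    · exact nb2 h'.symm
    · exact nc2 h'.symm
  · rintro z (rfl | rfl | rfl) q hq
    · rcases T q hq with h5 | h5 | h5 <;> simp [h5]
    · by_cases hqu : q = u
      · exact Or.inr (Or.inr hqu)
      have hqv : q ≠ v := by rintro rfl; exact hb.2 hq.symm
      rcases e c z hxc hxb hac hbc.symm hab q hq hqu hqv with h5 | h5 | h5 <;> simp [h5]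
    · by_cases hqu : q = u
      · exact Or.inr (Or.inr hqu)
      have hqv : q ≠ v := by rintro rfl; exact hc.2 hq.symm
      rcases e b z hxb hxc hab hbc hac q hq hqu hqv with h5 | h5 | h5 <;> simp [h5]

/-- The triangle case, `b` and `c` on the side of `u`. -/
lemma Hyp.T1core (h : Hyp G u v) {x a b c : V} (hx : Far G u v x)
    (T : ∀ t, G.Adj x t → t = a ∨ t = b ∨ t = c) (hxa : G.Adj x a) (hxb : G.Adj x b)
    (hxc : G.Adj x c) (hab : G.Adj a b) (hbc : G.Adj b c) (hac : G.Adj a c)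
    (hb : G.Adj u b ∧ ¬ G.Adj v b) (hc : G.Adj u c ∧ ¬ G.Adj v c) : False := by
  have huv := h.huv
  obtain ⟨naQ, na1, na2⟩ := h.nb hx hxa
  obtain ⟨nbQ, nb1, nb2⟩ := h.nb hx hxb
  obtain ⟨ncQ, nc1, nc2⟩ := h.nb hx hxc
  have hva : G.Adj v a := by
    obtain ⟨z, hz, hzx⟩ := h.eM hx
    rcases T z hzx.symm with h5 | h5 | h5
    · rw [← h5]; exact hz
    · exact absurd (h5 ▸ hz) hb.2
    · exact absurd (h5 ▸ hz) hc.2
  obtain ⟨z, hvz, hza⟩ := h.h3 v a hva.ne
  by_cases hzu : z = u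
  · subst hzu
    exact h.T2 hx T hxa hxb hxc hab hbc hac ⟨hza, hva⟩ hb hc
  · obtain ⟨x1, x2, x3, x4⟩ := hx
    obtain ⟨hc1, hc2⟩ := hc
    obtain ⟨hb1, hb2⟩ := hb
    exact h.K z a x b c (by (simp only [List.nodup_cons, List.mem_cons, List.not_mem_nil, or_false, not_or, List.nodup_nil, and_true, not_false_eq_true]); (repeat' apply And.intro); (all_goals grind [SimpleGraph.irrefl, SimpleGraph.adj_comm])) hza hxa.symm hxb hbc (Or.inr ⟨hvz, hc1⟩)

/-- In the triangle case a vertex of the triangle has no further neighbours. -/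
lemma Hyp.T1 (h : Hyp G u v) {x a b c : V} (hx : Far G u v x)
    (T : ∀ t, G.Adj x t → t = a ∨ t = b ∨ t = c) (hxa : G.Adj x a) (hxb : G.Adj x b)
    (hxc : G.Adj x c) (hab : G.Adj a b) (hbc : G.Adj b c) (hac : G.Adj a c) {y : V}
    (hay : G.Adj a y) (hyu : y ≠ u) (hyv : y ≠ v) : y = x ∨ y = b ∨ y = c := by
  by_contra hno
  push Not at hno
  obtain ⟨hyx, hyb, hyc⟩ := hno
  have huv := h.huv
  obtain ⟨naQ, na1, na2⟩ := h.nb hx hxa
  obtain ⟨nbQ, nb1, nb2⟩ := h.nb hx hxb
  obtain ⟨ncQ, nc1, nc2⟩ := h.nb hx hxc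
  -- enough: `b` and `c` of the same strict type
  have enough : ((G.Adj u b ∧ ¬ G.Adj v b) ∧ (G.Adj u c ∧ ¬ G.Adj v c)) ∨
      ((G.Adj v b ∧ ¬ G.Adj u b) ∧ (G.Adj v c ∧ ¬ G.Adj u c)) → False := by
    rintro (h1 | h1)
    · exact h.T1core hx T hxa hxb hxc hab hbc hac h1.1 h1.2
    · exact h.symm.T1core hx.symm T hxa hxb hxc hab hbc hac h1.1 h1.2
  rcases farOr' (G := G) y hyu hyv with h4 | h4
  · have outer : ∀ p, G.Adj y p → p ≠ a → p ≠ b → p ≠ c → False := by
      intro p hp hpa hpb hpc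
      obtain ⟨npQ, np1, np2⟩ := h.nb h4 hp
      have hpx : p ≠ x := by
        rintro rfl
        exact h.L2 hx h4 hp.symm
      obtain ⟨x1, x2, x3, x4⟩ := hx
      obtain ⟨y1, y2, y3, y4⟩ := h4
      have k1 := h.K p y a b c (by (simp only [List.nodup_cons, List.mem_cons, List.not_mem_nil, or_false, not_or, List.nodup_nil, and_true, not_false_eq_true]); (repeat' apply And.intro); (all_goals grind [SimpleGraph.irrefl, SimpleGraph.adj_comm])) hp.symm hay.symm hab hbc
      have k2 := h.K p y a c b (by (simp only [List.nodup_cons, List.mem_cons, List.not_mem_nil, or_false, not_or, List.nodup_nil, and_true, not_false_eq_true]); (repeat' apply And.intro); (all_goals grind [SimpleGraph.irrefl, SimpleGraph.adj_comm])) hp.symm hay.symm hac hbc.symm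
      apply enough
      unfold NM at k1 k2
      grind
    have hyc' : G.Adj y c := by
      obtain ⟨p, hp, hpa, hpb⟩ := h.deg y a b hab.ne hay.ne.symm hyb
      by_cases hpc : p = c
      · rw [← hpc]; exact hp
      · exact (outer p hp hpa hpb hpc).elim
    have hyb' : G.Adj y b := by
      obtain ⟨p, hp, hpa, hpc⟩ := h.deg y a c hac.ne hay.ne.symm hyc
      by_cases hpb : p = b
      · rw [← hpb]; exact hp
      · exact (outer p hp hpa hpb hpc).elim
    obtain ⟨x1, x2, x3, x4⟩ := hx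
    obtain ⟨y1, y2, y3, y4⟩ := h4
    have k1 := h.K a x b y c (by (simp only [List.nodup_cons, List.mem_cons, List.not_mem_nil, or_false, not_or, List.nodup_nil, and_true, not_false_eq_true]); (repeat' apply And.intro); (all_goals grind [SimpleGraph.irrefl, SimpleGraph.adj_comm])) hxa.symm hxb hyb'.symm hyc'
    have k2 := h.K b x a y c (by (simp only [List.nodup_cons, List.mem_cons, List.not_mem_nil, or_false, not_or, List.nodup_nil, and_true, not_false_eq_true]); (repeat' apply And.intro); (all_goals grind [SimpleGraph.irrefl, SimpleGraph.adj_comm])) hxb.symm hxa hay hyc'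
    apply enough
    unfold NM at k1 k2
    grind
  · obtain ⟨x1, x2, x3, x4⟩ := hx
    have k1 := h.K y a x b c (by (simp only [List.nodup_cons, List.mem_cons, List.not_mem_nil, or_false, not_or, List.nodup_nil, and_true, not_false_eq_true]); (repeat' apply And.intro); (all_goals grind [SimpleGraph.irrefl, SimpleGraph.adj_comm])) hay.symm hxa.symm hxb hbc
    have k2 := h.K y a x c b (by (simp only [List.nodup_cons, List.mem_cons, List.not_mem_nil, or_false, not_or, List.nodup_nil, and_true, not_false_eq_true]); (repeat' apply And.intro); (all_goals grind [SimpleGraph.irrefl, SimpleGraph.adj_comm])) hay.symm hxa.symm hxc hbc.symm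
    apply enough
    unfold NM at k1 k2
    grind

/-- The triangle case. -/
lemma Hyp.tri (h : Hyp G u v) {x a b c : V} (hx : Far G u v x)
    (T : ∀ t, G.Adj x t → t = a ∨ t = b ∨ t = c) (hxa : G.Adj x a) (hxb : G.Adj x b)
    (hxc : G.Adj x c) (hab : G.Adj a b) (hbc : G.Adj b c) (hac : G.Adj a c) : False := by
  classical
  have huv := h.huv
  obtain ⟨naQ, na1, na2⟩ := h.nb hx hxa
  obtain ⟨nbQ, nb1, nb2⟩ := h.nb hx hxb
  obtain ⟨ncQ, nc1, nc2⟩ := h.nb hx hxc
  obtain ⟨y, hy⟩ := h.outside {x, a, b, c, u, v} (by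
    refine (Finset.card_insert_le _ _).trans ?_
    have := @Finset.card_le_five V _ a b c u v
    omega)
  simp only [Finset.mem_insert, Finset.mem_singleton, not_or] at hy
  obtain ⟨y1, y2, y3, y4, y5, y6⟩ := hy
  refine cut h.hn {x, a, b, c} u v huv ?_ ?_ x (by simp) y ?_ y5 y6 ?_
  · rintro (h' | h' | h' | h')
    · exact hx.1 h'.symm
    · exact na1 h'.symm
    · exact nb1 h'.symm
    · exact nc1 h'.symm
  · rintro (h' | h' | h' | h')
    · exact hx.2.1 h'.symm
    · exact na2 h'.symm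
    · exact nb2 h'.symm
    · exact nc2 h'.symm
  · rintro (h' | h' | h' | h')
    · exact y1 h'
    · exact y2 h'
    · exact y3 h'
    · exact y4 h'
  · intro z hz q hq
    by_cases hqu : q = u
    · exact Or.inr (Or.inl hqu)
    by_cases hqv : q = v
    · exact Or.inr (Or.inr hqv)
    left
    simp only [Set.mem_insert_iff, Set.mem_singleton_iff] at hz ⊢
    rcases hz with rfl | rfl | rfl | rfl
    · rcases T q hq with h5 | h5 | h5 <;> simp [h5]
    · rcases h.T1 hx T hxa hxb hxc hab hbc hac hq hqu hqv with h5 | h5 | h5 <;> simp [h5]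
    · rcases h.T1 hx (fun t ht => by rcases T t ht with h6 | h6 | h6 <;> simp [h6])
        hxb hxc hxa hbc hac.symm hab.symm hq hqu hqv with h5 | h5 | h5 <;> simp [h5]
    · rcases h.T1 hx (fun t ht => by rcases T t ht with h6 | h6 | h6 <;> simp [h6])
        hxc hxa hxb hac.symm hab hbc.symm hq hqu hqv with h5 | h5 | h5 <;> simp [h5]

/-- No two disjoint edges among the neighbours of a far vertex; all on the side of `u`. -/
lemma Hyp.disjCore (h : Hyp G u v) {x t1 t2 t3 t4 : V} (hx : Far G u v x) (h1 : G.Adj x t1)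
    (h2 : G.Adj x t2) (h3 : G.Adj x t3) (h4 : G.Adj x t4) (h12 : G.Adj t1 t2)
    (h34 : G.Adj t3 t4) (n1 : ¬ G.Adj v t1) (n2 : ¬ G.Adj v t2) (n3 : ¬ G.Adj v t3)
    (n4 : ¬ G.Adj v t4) (n13 : t1 ≠ t3) (n14 : t1 ≠ t4) (n23 : t2 ≠ t3) (n24 : t2 ≠ t4) :
    False := by
  have huv := h.huv
  obtain ⟨q1, a1, b1⟩ := h.nb hx h1
  obtain ⟨q2, a2, b2⟩ := h.nb hx h2
  obtain ⟨q3, a3, b3⟩ := h.nb hx h3
  obtain ⟨q4, a4, b4⟩ := h.nb hx h4
  obtain ⟨z, hvz, hzx⟩ := h.eM hx
  obtain ⟨qz, az, bz⟩ := h.nb hx hzx.symm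
  obtain ⟨z', hxz', hzz'⟩ := h.h3 x z hzx.ne.symm
  obtain ⟨qz', az', bz'⟩ := h.nb hx hxz'
  have hu2 : G.Adj u t2 := q2.resolve_right n2
  have hu4 : G.Adj u t4 := q4.resolve_right n4
  obtain ⟨x1, x2, x3, x4⟩ := hx
  by_cases hz' : z' = t1 ∨ z' = t2
  · have e3 : z' ≠ t3 := by rcases hz' with h' | h' <;> rw [h'] <;> assumption
    have e4 : z' ≠ t4 := by rcases hz' with h' | h' <;> rw [h'] <;> assumption
    exact h.K z z' x t3 t4 (by (simp only [List.nodup_cons, List.mem_cons, List.not_mem_nil, or_false, not_or, List.nodup_nil, and_true, not_false_eq_true]); (repeat' apply And.intro); (all_goals grind [SimpleGraph.irrefl, SimpleGraph.adj_comm])) hzz'.symm hxz'.symm h3 h34 (Or.inr ⟨hvz, hu4⟩)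
  · push Not at hz'
    obtain ⟨e1, e2⟩ := hz'
    exact h.K z z' x t1 t2 (by (simp only [List.nodup_cons, List.mem_cons, List.not_mem_nil, or_false, not_or, List.nodup_nil, and_true, not_false_eq_true]); (repeat' apply And.intro); (all_goals grind [SimpleGraph.irrefl, SimpleGraph.adj_comm])) hzz'.symm hxz'.symm h1 h12 (Or.inr ⟨hvz, hu2⟩)

lemma Hyp.disj (h : Hyp G u v) {x t1 t2 t3 t4 : V} (hx : Far G u v x) (h1 : G.Adj x t1)
    (h2 : G.Adj x t2) (h3 : G.Adj x t3) (h4 : G.Adj x t4) (h12 : G.Adj t1 t2)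
    (h34 : G.Adj t3 t4) (n13 : t1 ≠ t3) (n14 : t1 ≠ t4) (n23 : t2 ≠ t3) (n24 : t2 ≠ t4) :
    False := by
  have huv := h.huv
  obtain ⟨q1, a1, b1⟩ := h.nb hx h1
  obtain ⟨q2, a2, b2⟩ := h.nb hx h2
  obtain ⟨q3, a3, b3⟩ := h.nb hx h3
  obtain ⟨q4, a4, b4⟩ := h.nb hx h4
  have hx' := hx
  obtain ⟨x1, x2, x3, x4⟩ := hx'
  have k14 := h.K t1 t2 x t3 t4 (by (simp only [List.nodup_cons, List.mem_cons, List.not_mem_nil, or_false, not_or, List.nodup_nil, and_true, not_false_eq_true]); (repeat' apply And.intro); (all_goals grind [SimpleGraph.irrefl, SimpleGraph.adj_comm])) h12 h2.symm h3 h34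
  have k13 := h.K t1 t2 x t4 t3 (by (simp only [List.nodup_cons, List.mem_cons, List.not_mem_nil, or_false, not_or, List.nodup_nil, and_true, not_false_eq_true]); (repeat' apply And.intro); (all_goals grind [SimpleGraph.irrefl, SimpleGraph.adj_comm])) h12 h2.symm h4 h34.symm
  have k24 := h.K t2 t1 x t3 t4 (by (simp only [List.nodup_cons, List.mem_cons, List.not_mem_nil, or_false, not_or, List.nodup_nil, and_true, not_false_eq_true]); (repeat' apply And.intro); (all_goals grind [SimpleGraph.irrefl, SimpleGraph.adj_comm])) h12.symm h1.symm h3 h34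
  have k23 := h.K t2 t1 x t4 t3 (by (simp only [List.nodup_cons, List.mem_cons, List.not_mem_nil, or_false, not_or, List.nodup_nil, and_true, not_false_eq_true]); (repeat' apply And.intro); (all_goals grind [SimpleGraph.irrefl, SimpleGraph.adj_comm])) h12.symm h1.symm h4 h34.symm
  unfold NM at k14 k13 k24 k23
  by_cases hu : G.Adj u t1
  · refine h.disjCore hx h1 h2 h3 h4 h12 h34 ?_ ?_ ?_ ?_ n13 n14 n23 n24 <;> grind
  · refine h.symm.disjCore hx.symm h1 h2 h3 h4 h12 h34 ?_ ?_ ?_ ?_ n13 n14 n23 n24 <;> grind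

/-- There are no far vertices. -/
lemma Hyp.noFar (h : Hyp G u v) {x : V} (hx : Far G u v x) : False := by
  have tn : ∀ t, G.Adj x t → ∃ t', G.Adj x t' ∧ G.Adj t' t := fun t ht => h.h3 x t ht.ne
  obtain ⟨a, hua, hax⟩ := h.eN hx
  obtain ⟨b, hxb, hba⟩ := tn a hax.symm
  obtain ⟨p, hxp, hpa, hpb⟩ := h.deg x a b hba.ne.symm hax.ne.symm hxb.ne
  obtain ⟨p', hxp', hpp⟩ := tn p hxp
  -- a path `l - c - l'` among the neighbours
  obtain ⟨c, l, l', hxc, hxl, hxl', hcl, hcl', hne⟩ : ∃ c l l', G.Adj x c ∧ G.Adj x l ∧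
      G.Adj x l' ∧ G.Adj c l ∧ G.Adj c l' ∧ l ≠ l' := by
    by_cases h1 : p' = a
    · subst h1
      exact ⟨p', b, p, hxp', hxb, hxp, hba.symm, hpp, hpb.symm⟩
    by_cases h2 : p' = b
    · subst h2
      exact ⟨p', a, p, hxp', hax.symm, hxp, hba, hpp, hpa.symm⟩
    exact (h.disj hx hxb hax.symm hxp' hxp hba hpp (Ne.symm h2) hpb.symm (Ne.symm h1)
      hpa.symm).elim
  by_cases hll : G.Adj l l'
  · refine h.tri hx (a := c) (b := l) (c := l') ?_ hxc hxl hxl' hcl hll hcl'
    intro t ht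
    by_contra hno
    push Not at hno
    obtain ⟨n1, n2, n3⟩ := hno
    obtain ⟨t', ht', htt⟩ := tn t ht
    by_cases e1 : t' = c
    · subst e1
      exact h.disj hx ht' ht hxl hxl' htt hll hcl.ne hcl'.ne n2 n3
    by_cases e2 : t' = l
    · subst e2
      exact h.disj hx ht' ht hxc hxl' htt hcl' e1 hne n1 n3
    exact h.disj hx ht' ht hxc hxl htt hcl e1 e2 n1 n2
  · refine h.star hx hxc hxl hxl' hcl.ne.symm hcl'.ne.symm hne ?_ ?_
    · intro t ht htc
      by_cases f1 : t = l
      · rw [f1]; exact hcl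
      by_cases f2 : t = l'
      · rw [f2]; exact hcl'
      obtain ⟨t', ht', htt⟩ := tn t ht
      by_cases e1 : t' = c
      · rw [← e1]; exact htt
      exfalso
      by_cases e2 : t' = l
      · subst e2
        exact h.disj hx ht' ht hxc hxl' htt hcl' e1 hne htc f2
      · exact h.disj hx ht' ht hxc hxl htt hcl e1 e2 htc f1
    · intro t t' ht ht' htc ht'c htt
      by_cases f1 : t = l
      · subst f1
        have f2 : t' ≠ l' := by rintro rfl; exact hll htt
        exact h.disj hx ht ht' hxc hxl' htt hcl' htc hne ht'c f2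
      by_cases f2 : t' = l
      · subst f2
        have f3 : t ≠ l' := by rintro rfl; exact hll htt.symm
        exact h.disj hx ht ht' hxc hxl' htt hcl' htc f3 ht'c hne
      exact h.disj hx ht ht' hxc hxl htt hcl htc f1 ht'c f2

end far

end Pool.Agent.Q291.PO
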