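import Mathlib
import Pool.Agent.Q291.PO.Need7d

/-!
# `P_3` and `P_n` force `P_7` for `n ≥ 8`: conclusion
-/

namespace Pool.Agent.Q291.PO

section far

variable {V : Type*} [Fintype V] {G : SimpleGraph V} {u v : V}

/-- An enumeration of the vertices along a Hamiltonian path. -/
structure Enum (G : SimpleGraph V) (u v : V) (n : ℕ) (f : ℕ → V) : Prop where
  zero : f 0 = u
  last : f (n - 1) = v
  adj : ∀ i, i + 1 < n → G.Adj (f i) (f (i + 1))
  inj : ∀ i j, i < n → j < n → f i = f j → i = j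
  surj : ∀ z, ∃ i, i < n ∧ f i = z

omit [Fintype V] in
lemma Enum.rev {n : ℕ} {f : ℕ → V} (_hn : 1 ≤ n) (h : Enum G u v n f) :
    Enum G v u n (fun i => f (n - 1 - i)) := by
  refine ⟨by simpa using h.last, by simpa using h.zero, ?_, ?_, ?_⟩
  · intro i hi
    have h1 := h.adj (n - 1 - (i + 1)) (by omega)
    have e : n - 1 - (i + 1) + 1 = n - 1 - i := by omega
    rw [e] at h1
    exact h1.symm
  · intro i j hi hj hij
    have := h.inj _ _ (by omega) (by omega) hij
    omega
  · intro z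
    obtain ⟨i, hi, hz⟩ := h.surj z
    refine ⟨n - 1 - i, by omega, ?_⟩
    have e : n - 1 - (n - 1 - i) = i := by omega
    simp only [e]
    exact hz

lemma exists_enum (h : Hyp G u v) : ∃ f, Enum G u v (Fintype.card V) f := by
  classical
  obtain ⟨l, hl, hnd, hc, hu, hv⟩ := h.hn u v h.huv
  have hcard := h.hcard
  have hall : ∀ z, z ∈ l := by
    intro z
    have h1 : l.toFinset = Finset.univ := by
      apply Finset.eq_univ_of_card
      rw [List.toFinset_card_of_nodup hnd, hl]
    have : z ∈ l.toFinset := by rw [h1]; exact Finset.mem_univ z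
    simpa using this
  have get : ∀ i (hi : i < l.length), l.getD i u = l[i] := fun i hi => by
    simp [List.getD_eq_getElem?_getD, List.getElem?_eq_getElem hi]
  refine ⟨fun i => l.getD i u, ?_, ?_, ?_, ?_, ?_⟩
  · show l.getD 0 u = u
    have h0 : 0 < l.length := by omega
    rw [get 0 h0]
    rw [List.head?_eq_getElem?, List.getElem?_eq_getElem h0] at hu
    exact Option.some.inj hu
  · show l.getD (Fintype.card V - 1) u = v
    rw [← hl]
    have h0 : l.length - 1 < l.length := by omega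
    rw [get _ h0]
    rw [List.getLast?_eq_getElem?, List.getElem?_eq_getElem h0] at hv
    exact Option.some.inj hv
  · intro i hi
    show G.Adj (l.getD i u) (l.getD (i + 1) u)
    rw [get i (by omega), get (i + 1) (by omega)]
    exact List.isChain_iff_getElem.1 hc i (by omega)
  · intro i j hi hj hij
    change l.getD i u = l.getD j u at hij
    rw [get i (by omega), get j (by omega)] at hij
    exact (List.Nodup.getElem_inj_iff hnd).1 hij
  · intro z
    obtain ⟨i, hi, hz⟩ := List.getElem_of_mem (hall z)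
    exact ⟨i, by omega, by show l.getD i u = z; rw [get i hi]; exact hz⟩

lemma Hyp.KI (h : Hyp G u v) {n : ℕ} {f : ℕ → V} (hf : Enum G u v n f) (a b c d e : ℕ)
    (hnd : [0, n - 1, a, b, c, d, e].Nodup) (hlt : ∀ i ∈ [0, n - 1, a, b, c, d, e], i < n)
    (h1 : G.Adj (f a) (f b)) (h2 : G.Adj (f b) (f c)) (h3 : G.Adj (f c) (f d))
    (h4 : G.Adj (f d) (f e)) : ¬ NM G u v (f a) (f e) := by
  refine h.K (f a) (f b) (f c) (f d) (f e) ?_ h1 h2 h3 h4
  have e1 : [u, v, f a, f b, f c, f d, f e] = List.map f [0, n - 1, a, b, c, d, e] := by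
    simp [hf.zero, hf.last]
  rw [e1]
  exact List.Nodup.map_on (fun x hx y hy hxy => hf.inj x y (hlt x hx) (hlt y hy) hxy) hnd

/-- Order eight. -/
lemma Hyp.case8 (h : Hyp G u v) {f : ℕ → V} (hf : Enum G u v 8 f)
    (hQ : ∀ x, x ≠ u → x ≠ v → G.Adj u x ∨ G.Adj v x)
    (hu3 : G.Adj u (f 3)) (hv3 : G.Adj v (f 3)) : False := by
  have ne : ∀ i j, i < 8 → j < 8 → i ≠ j → f i ≠ f j := fun i j hi hj hij h' =>
    hij (hf.inj i j hi hj h')
  have Q : ∀ i, i < 8 → i ≠ 0 → i ≠ 7 → G.Adj u (f i) ∨ G.Adj v (f i) := by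
    intro i hi h0 h7
    refine hQ (f i) ?_ ?_
    · rw [← hf.zero]; exact ne i 0 hi (by omega) h0
    · have := hf.last
      rw [← this]; exact ne i _ hi (by omega) (by omega)
  have X : ∀ i, i < 8 → i ≠ 0 → i ≠ 7 → NM G u v (f 3) (f i) := by
    intro i hi h0 h7
    rcases Q i hi h0 h7 with h1 | h1
    · exact Or.inr ⟨hv3, h1⟩
    · exact Or.inl ⟨hu3, h1⟩
  have a01 : G.Adj u (f 1) := by have := hf.adj 0 (by omega); rwa [hf.zero] at this
  have a12 := hf.adj 1 (by omega)
  have a23 := hf.adj 2 (by omega)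
  have a34 := hf.adj 3 (by omega)
  have a45 := hf.adj 4 (by omega)
  have a56 := hf.adj 5 (by omega)
  have a67 : G.Adj v (f 6) := by
    have := hf.adj 6 (by omega)
    have e := hf.last
    simp only [Nat.reduceSub] at e
    rw [e] at this
    exact this.symm
  simp only [Nat.reduceAdd] at a12 a23 a34 a45 a56
  have w15 := h.KI hf 1 2 3 4 5 (by decide) (by decide) a12 a23 a34 a45
  have w26 := h.KI hf 2 3 4 5 6 (by decide) (by decide) a23 a34 a45 a56
  have q5 := Q 5 (by omega) (by omega) (by omega)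
  have q2 := Q 2 (by omega) (by omega) (by omega)
  have n16 : ¬ G.Adj (f 6) (f 1) := fun h' =>
    h.KI hf 3 4 5 6 1 (by decide) (by decide) a34 a45 a56 h' (X 1 (by omega) (by omega) (by omega))
  have n26 : ¬ G.Adj (f 6) (f 2) := fun h' =>
    h.KI hf 3 4 5 6 2 (by decide) (by decide) a34 a45 a56 h' (X 2 (by omega) (by omega) (by omega))
  have n15 : ¬ G.Adj (f 1) (f 5) := fun h' =>
    h.KI hf 3 2 1 5 4 (by decide) (by decide) a23.symm a12.symm h' a45.symm
      (X 4 (by omega) (by omega) (by omega))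
  have n25 : ¬ G.Adj (f 5) (f 2) := fun h' =>
    h.KI hf 3 4 5 2 1 (by decide) (by decide) a34 a45 h' a12.symm
      (X 1 (by omega) (by omega) (by omega))
  have n14 : ¬ G.Adj (f 1) (f 4) := fun h' =>
    h.KI hf 3 2 1 4 5 (by decide) (by decide) a23.symm a12.symm h' a45
      (X 5 (by omega) (by omega) (by omega))
  have n24 : ¬ G.Adj (f 2) (f 4) := fun h' =>
    h.KI hf 3 2 4 5 6 (by decide) (by decide) a23.symm h' a45 a56
      (X 6 (by omega) (by omega) (by omega))
  unfold NM at w15 w26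
  have nv1 : ¬ G.Adj v (f 1) := by grind
  have nv5 : ¬ G.Adj v (f 5) := by grind
  have u5 : G.Adj u (f 5) := by grind
  have nu2 : ¬ G.Adj u (f 2) := by grind
  have nu6 : ¬ G.Adj u (f 6) := by grind
  have v2 : G.Adj v (f 2) := by grind
  have hlast : f 7 = v := hf.last
  have b : G.Adj (f 1) (f 3) ∧ G.Adj (f 3) (f 6) := by
    obtain ⟨z, h1, h2⟩ := h.h3 (f 1) (f 6) (ne 1 6 (by omega) (by omega) (by omega))
    obtain ⟨i, hi, rfl⟩ := hf.surj z
    interval_cases i
    · rw [hf.zero] at h2; exact absurd h2 nu6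
    · exact absurd h1 (G.irrefl)
    · exact absurd h2.symm n26
    · exact ⟨h1, h2⟩
    · exact absurd h1 n14
    · exact absurd h1 n15
    · exact absurd h2 (G.irrefl)
    · rw [hlast] at h1; exact absurd h1.symm nv1
  exact h.KI hf 2 1 3 6 5 (by decide) (by decide) a12.symm b.1 b.2 a56.symm (Or.inr ⟨v2, u5⟩)

/-- Order nine. -/
lemma Hyp.case9 (h : Hyp G u v) {f : ℕ → V} (hf : Enum G u v 9 f)
    (hQ : ∀ x, x ≠ u → x ≠ v → G.Adj u x ∨ G.Adj v x)
    (hu4 : G.Adj u (f 4)) (hv4 : G.Adj v (f 4)) : False := by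
  have ne : ∀ i j, i < 9 → j < 9 → i ≠ j → f i ≠ f j := fun i j hi hj hij h' =>
    hij (hf.inj i j hi hj h')
  have Q : ∀ i, i < 9 → i ≠ 0 → i ≠ 8 → G.Adj u (f i) ∨ G.Adj v (f i) := by
    intro i hi h0 h7
    refine hQ (f i) ?_ ?_
    · rw [← hf.zero]; exact ne i 0 hi (by omega) h0
    · have := hf.last
      rw [← this]; exact ne i _ hi (by omega) (by omega)
  have X : ∀ i, i < 9 → i ≠ 0 → i ≠ 8 → NM G u v (f 4) (f i) := by
    intro i hi h0 h7
    rcases Q i hi h0 h7 with h1 | h1
    · exact Or.inr ⟨hv4, h1⟩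
    · exact Or.inl ⟨hu4, h1⟩
  have a01 : G.Adj u (f 1) := by have := hf.adj 0 (by omega); rwa [hf.zero] at this
  have a12 := hf.adj 1 (by omega)
  have a23 := hf.adj 2 (by omega)
  have a34 := hf.adj 3 (by omega)
  have a45 := hf.adj 4 (by omega)
  have a56 := hf.adj 5 (by omega)
  have a67 := hf.adj 6 (by omega)
  have hlast : f 8 = v := hf.last
  have a78 : G.Adj v (f 7) := by
    have := hf.adj 7 (by omega)
    simp only [Nat.reduceAdd] at this
    rw [hlast] at this
    exact this.symm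
  simp only [Nat.reduceAdd] at a12 a23 a34 a45 a56 a67
  have w15 := h.KI hf 1 2 3 4 5 (by decide) (by decide) a12 a23 a34 a45
  have w26 := h.KI hf 2 3 4 5 6 (by decide) (by decide) a23 a34 a45 a56
  have w37 := h.KI hf 3 4 5 6 7 (by decide) (by decide) a34 a45 a56 a67
  have q1 := Q 1 (by omega) (by omega) (by omega)
  have q2 := Q 2 (by omega) (by omega) (by omega)
  have q3 := Q 3 (by omega) (by omega) (by omega)
  have q5 := Q 5 (by omega) (by omega) (by omega)
  have q6 := Q 6 (by omega) (by omega) (by omega)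
  have q7 := Q 7 (by omega) (by omega) (by omega)
  have n15 : ¬ G.Adj (f 1) (f 5) := fun h' =>
    h.KI hf 4 3 2 1 5 (by decide) (by decide) a34.symm a23.symm a12.symm h'
      (X 5 (by omega) (by omega) (by omega))
  have n16 : ¬ G.Adj (f 1) (f 6) := fun h' =>
    h.KI hf 4 3 2 1 6 (by decide) (by decide) a34.symm a23.symm a12.symm h'
      (X 6 (by omega) (by omega) (by omega))
  have n17 : ¬ G.Adj (f 1) (f 7) := fun h' =>
    h.KI hf 4 3 2 1 7 (by decide) (by decide) a34.symm a23.symm a12.symm h'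
      (X 7 (by omega) (by omega) (by omega))
  have n25 : ¬ G.Adj (f 2) (f 5) := fun h' =>
    h.KI hf 4 3 2 5 6 (by decide) (by decide) a34.symm a23.symm h' a56
      (X 6 (by omega) (by omega) (by omega))
  have n26 : ¬ G.Adj (f 2) (f 6) := fun h' =>
    h.KI hf 4 3 2 6 7 (by decide) (by decide) a34.symm a23.symm h' a67
      (X 7 (by omega) (by omega) (by omega))
  have n27 : ¬ G.Adj (f 2) (f 7) := fun h' =>
    h.KI hf 4 3 2 7 6 (by decide) (by decide) a34.symm a23.symm h' a67.symm
      (X 6 (by omega) (by omega) (by omega))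
  have n35 : ¬ G.Adj (f 3) (f 5) := fun h' =>
    h.KI hf 4 3 5 6 7 (by decide) (by decide) a34.symm h' a56 a67
      (X 7 (by omega) (by omega) (by omega))
  have n36 : ¬ G.Adj (f 6) (f 3) := fun h' =>
    h.KI hf 4 5 6 3 2 (by decide) (by decide) a45 a56 h' a23.symm
      (X 2 (by omega) (by omega) (by omega))
  have n37 : ¬ G.Adj (f 7) (f 3) := fun h' =>
    h.KI hf 4 5 6 7 3 (by decide) (by decide) a45 a56 a67 h'
      (X 3 (by omega) (by omega) (by omega))
  unfold NM at w15 w26 w37
  have nv1 : ¬ G.Adj v (f 1) := by grind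
  have nv5 : ¬ G.Adj v (f 5) := by grind
  have u5 : G.Adj u (f 5) := by grind
  have nu3 : ¬ G.Adj u (f 3) := by grind
  have nu7 : ¬ G.Adj u (f 7) := by grind
  have v3 : G.Adj v (f 3) := by grind
  -- vertices on different sides and of different types have the common neighbour `f 4`
  have side : ∀ p q, (p = 1 ∨ p = 2 ∨ p = 3) → (q = 5 ∨ q = 6 ∨ q = 7) →
      ¬ (G.Adj u (f p) ∧ G.Adj u (f q)) → ¬ (G.Adj v (f p) ∧ G.Adj v (f q)) →
      G.Adj (f p) (f 4) ∧ G.Adj (f 4) (f q) := by
    intro p q hp hq k1 k2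
    obtain ⟨z, h1, h2⟩ := h.h3 (f p) (f q) (ne p q (by omega) (by omega) (by omega))
    obtain ⟨i, hi, rfl⟩ := hf.surj z
    have AB : ∀ a b, (a = 1 ∨ a = 2 ∨ a = 3) → (b = 5 ∨ b = 6 ∨ b = 7) →
        ¬ G.Adj (f a) (f b) := by
      rintro a b (rfl | rfl | rfl) (rfl | rfl | rfl) h'
      · exact n15 h'
      · exact n16 h'
      · exact n17 h'
      · exact n25 h'
      · exact n26 h'
      · exact n27 h'
      · exact n35 h'
      · exact n36 h'.symm
      · exact n37 h'.symm
    interval_cases i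
    · rw [hf.zero] at h1 h2; exact absurd ⟨h1.symm, h2⟩ k1
    · exact absurd h2 (AB 1 q (by simp) hq)
    · exact absurd h2 (AB 2 q (by simp) hq)
    · exact absurd h2 (AB 3 q (by simp) hq)
    · exact ⟨h1, h2⟩
    · exact absurd h1 (AB p 5 hp (by simp))
    · exact absurd h1 (AB p 6 hp (by simp))
    · exact absurd h1 (AB p 7 hp (by simp))
    · rw [hlast] at h1 h2; exact absurd ⟨h1.symm, h2⟩ k2
  have c2 : G.Adj (f 2) (f 4) := by
    by_cases hu2 : G.Adj u (f 2)
    · exact (side 2 7 (by simp) (by simp) (by grind) (by grind)).1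
    · exact (side 2 5 (by simp) (by simp) (by grind) (by grind)).1
  have c6 : G.Adj (f 4) (f 6) := by
    by_cases hu2 : G.Adj u (f 6)
    · exact (side 3 6 (by simp) (by simp) (by grind) (by grind)).2
    · exact (side 1 6 (by simp) (by simp) (by grind) (by grind)).2
  exact h.KI hf 3 2 4 6 5 (by decide) (by decide) a23.symm c2 c6 a56.symm (Or.inr ⟨v3, u5⟩)

/-- `P_3` and `P_n` force `P_7` for `n ≥ 8`. -/
theorem need7 (hcard : 8 ≤ Fintype.card V) (hJ3 : Joined G 3)
    (hn : Joined G (Fintype.card V)) : Joined G 7 := by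
  classical
  intro u v huv
  by_contra hno
  have h : Hyp G u v := ⟨hcard, hn, fun p q hpq => hasPath_three (hJ3 p q hpq), huv, no7_of hno⟩
  have hQ : ∀ x, x ≠ u → x ≠ v → G.Adj u x ∨ G.Adj v x := by
    intro x hxu hxv
    by_contra h'
    push Not at h'
    exact h.noFar ⟨hxu, hxv, h'.1, h'.2⟩
  obtain ⟨t, hut, htv⟩ := h.h3 u v huv
  obtain ⟨f, hf⟩ := exists_enum h
  obtain ⟨i, hi, hit⟩ := hf.surj t
  have ne : ∀ i j, i < Fintype.card V → j < Fintype.card V → i ≠ j → f i ≠ f j :=
    fun i j hi hj hij h' => hij (hf.inj i j hi hj h')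
  have hi0 : i ≠ 0 := by
    rintro rfl
    rw [hf.zero] at hit
    exact hut.ne hit
  have hil : i ≠ Fintype.card V - 1 := by
    intro h'
    rw [h', hf.last] at hit
    exact htv.ne hit.symm
  have Q : ∀ j, j < Fintype.card V → j ≠ 0 → j ≠ Fintype.card V - 1 →
      G.Adj u (f j) ∨ G.Adj v (f j) := by
    intro j hj h0 h7
    refine hQ (f j) ?_ ?_
    · rw [← hf.zero]; exact ne j 0 hj (by omega) h0
    · rw [← hf.last]; exact ne j _ hj (by omega) h7
  have X : ∀ j, j < Fintype.card V → j ≠ 0 → j ≠ Fintype.card V - 1 →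
      NM G u v (f i) (f j) := by
    intro j hj h0 h7
    rw [hit]
    rcases Q j hj h0 h7 with h1 | h1
    · exact Or.inr ⟨htv.symm, h1⟩
    · exact Or.inl ⟨hut, h1⟩
  have win : ∀ j, j ≠ 0 → j + 4 < Fintype.card V - 1 → ¬ NM G u v (f j) (f (j + 4)) := by
    intro j hj0 hj
    refine h.KI hf j (j + 1) (j + 2) (j + 3) (j + 4) ?_ ?_ (hf.adj j (by omega))
      (hf.adj (j + 1) (by omega)) (hf.adj (j + 2) (by omega)) (hf.adj (j + 3) (by omega))
    · simp only [List.nodup_cons, List.mem_cons, List.not_mem_nil, or_false, not_or,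
        List.nodup_nil, and_true, not_false_eq_true]
      omega
    · simp only [List.mem_cons, List.not_mem_nil, or_false]
      intro k hk
      omega
  have hright : ¬ (i + 4 < Fintype.card V - 1) := fun h' =>
    win i hi0 h' (X (i + 4) (by omega) (by omega) (by omega))
  have hleft : i ≤ 4 := by
    by_contra h'
    obtain ⟨j, rfl⟩ : ∃ j, i = j + 4 := ⟨i - 4, by omega⟩
    have h1 := X j (by omega) (by omega) (by omega)
    refine win j (by omega) (by omega) ?_
    unfold NM at h1 ⊢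
    grind
  have hut' : G.Adj u (f i) := by rw [hit]; exact hut
  have hvt' : G.Adj v (f i) := by rw [hit]; exact htv.symm
  have hc : Fintype.card V = 8 ∨ Fintype.card V = 9 := by omega
  rcases hc with hc | hc
  · rw [hc] at hf hi hil hright
    have : i = 3 ∨ i = 4 := by omega
    rcases this with rfl | rfl
    · exact h.case8 hf hQ hut' hvt'
    · refine h.symm.case8 (hf.rev (by omega)) (fun x h1 h2 => (hQ x h2 h1).symm) ?_ ?_
      · simpa using hvt'
      · simpa using hut'
  · rw [hc] at hf hi hil hright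
    have : i = 4 := by omega
    subst this
    exact h.case9 hf hQ hut' hvt'

end far

end Pool.Agent.Q291.PO
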